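import Mathlib

/-!
# MP_3f8c0b_an: the algebra behind the Borsuk-Ulam theorem for `ZMod p`
-/

set_option autoImplicit false

open Finset

namespace Pool.Agent.Lib.MP_3f8c0b_an

variable {m p : ℕ}

/-- configurations: for every index either nothing or a value -/
abbrev Cfg (m p : ℕ) := Fin m → Option (ZMod p)

/-- functions on configurations -/
abbrev LL (m p : ℕ) := Cfg m p → ZMod p

/-- number of indices in use -/
def deg (s : Cfg m p) : ℕ := (univ.filter (fun i => s i ≠ none)).card

/-- the shift of a configuration -/
def shC (s : Cfg m p) : Cfg m p := fun i => (s i).map (fun g => g + 1)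

/-- the action of the generator -/
def TT (f : LL m p) : LL m p := fun s => f (shC s)

/-- sign -/
def sg (s : Cfg m p) (i : Fin m) : ZMod p :=
  (-1) ^ (univ.filter (fun j => j < i ∧ s j ≠ none)).card

/-- the empty configuration -/
def emp : Cfg m p := fun _ => none

/-- the unit -/
def one : LL m p := fun s => if s = emp then 1 else 0

/-- multiplication by the label `(g, i)` -/
def EE (g : ZMod p) (i : Fin m) (f : LL m p) : LL m p := fun s =>
  if s i = some g then sg s i * f (Function.update s i none) else 0

/-- the boundary operator -/
def dd [NeZero p] (f : LL m p) : LL m p := fun s =>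
  ∑ i ∈ univ.filter (fun i => s i = none), sg s i * ∑ g : ZMod p, f (Function.update s i (some g))

/-! ### signs -/

theorem sg_mul_self (s : Cfg m p) (i : Fin m) : sg s i * sg s i = 1 := by
  unfold sg
  rw [← pow_add, ← two_mul, pow_mul]
  simp

theorem sg_congr {s t : Cfg m p} {i : Fin m} (h : ∀ j < i, (s j ≠ none ↔ t j ≠ none)) :
    sg s i = sg t i := by
  unfold sg
  congr 2
  ext j
  simp only [mem_filter, mem_univ, true_and]
  constructor
  · rintro ⟨h1, h2⟩
    exact ⟨h1, (h j h1).1 h2⟩
  · rintro ⟨h1, h2⟩
    exact ⟨h1, (h j h1).2 h2⟩

theorem sg_update_ge (s : Cfg m p) {i j : Fin m} (a : Option (ZMod p)) (h : i ≤ j) :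
    sg (Function.update s j a) i = sg s i := by
  apply sg_congr
  intro l hl
  have : l ≠ j := ne_of_lt (lt_of_lt_of_le hl h)
  rw [Function.update_of_ne this]

theorem sg_update_some (s : Cfg m p) {i j : Fin m} (g : ZMod p) (h : j < i) (hs : s j = none) :
    sg (Function.update s j (some g)) i = - sg s i := by
  unfold sg
  have : univ.filter (fun l => l < i ∧ Function.update s j (some g) l ≠ none) =
      insert j (univ.filter (fun l => l < i ∧ s l ≠ none)) := by
    ext l
    simp only [mem_filter, mem_univ, true_and, mem_insert]
    by_cases hl : l = j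
    · subst hl
      simp [h]
    · rw [Function.update_of_ne hl]
      simp [hl]
  rw [this, card_insert_of_notMem, pow_succ]
  · ring
  · simp [hs]

theorem sg_update_none (s : Cfg m p) {i j : Fin m} (h : j < i) (hs : s j ≠ none) :
    sg (Function.update s j none) i = - sg s i := by
  obtain ⟨g, hg⟩ := Option.ne_none_iff_exists'.mp hs
  have h1 := sg_update_some (Function.update s j none) (i := i) (j := j) g h (by simp)
  rw [Function.update_idem] at h1
  have h2 : Function.update s j (some g) = s := by rw [← hg, Function.update_eq_self]
  rw [h2] at h1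
  rw [h1, neg_neg]

/-! ### the homotopy relation -/

theorem dd_EE [NeZero p] (g : ZMod p) (i : Fin m) (f : LL m p)
    (hf : ∀ s : Cfg m p, s i ≠ none → s i ≠ some g → f s = 0) :
    ∀ s, dd (EE g i f) s + EE g i (dd f) s = f s := by
  intro s
  by_cases h1 : s i = none
  · -- nothing at `i`
    have e1 : EE g i (dd f) s = 0 := by
      unfold EE
      rw [h1]
      simp
    rw [e1, add_zero]
    unfold dd
    rw [sum_eq_single i]
    · have : ∑ g' : ZMod p, EE g i f (Function.update s i (some g')) = sg s i * f s := by
        rw [sum_eq_single g]
        · unfold EE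
          rw [Function.update_self, if_pos rfl, sg_update_ge _ _ le_rfl, Function.update_idem,
            ← h1, Function.update_eq_self]
        · intro b _ hb
          unfold EE
          rw [Function.update_self, if_neg]
          simpa using hb
        · simp
      rw [this, ← mul_assoc, sg_mul_self, one_mul]
    · intro b hb hbi
      rw [sum_eq_zero, mul_zero]
      intro g' _
      unfold EE
      rw [Function.update_of_ne (Ne.symm hbi), h1]
      simp
    · intro h
      simp [h1] at h
  · by_cases h2 : s i = some g
    · -- the value at `i` is `g`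
      have e1 : EE g i (dd f) s = sg s i * dd f (Function.update s i none) := by
        unfold EE
        rw [if_pos h2]
      have hins : univ.filter (fun j => Function.update s i none j = none) =
          insert i (univ.filter (fun j => s j = none)) := by
        ext l
        simp only [mem_filter, mem_univ, true_and, mem_insert]
        by_cases hl : l = i
        · subst hl
          simp
        · rw [Function.update_of_ne hl]
          simp [hl]
      have hni : i ∉ univ.filter (fun j => s j = none) := by simp [h1]
      rw [e1]
      unfold dd
      rw [hins, sum_insert hni, mul_add]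
      have e2 : sg s i * (sg (Function.update s i none) i *
          ∑ g' : ZMod p, f (Function.update (Function.update s i none) i (some g'))) = f s := by
        rw [sg_update_ge _ _ le_rfl, ← mul_assoc, sg_mul_self, one_mul, sum_eq_single g]
        · rw [Function.update_idem, ← h2, Function.update_eq_self]
        · intro b _ hb
          apply hf
          · simp
          · rw [Function.update_self]
            simpa using hb
        · simp
      rw [e2]
      have e3 : ∑ j ∈ univ.filter (fun j => s j = none),
          sg s j * ∑ g' : ZMod p, EE g i f (Function.update s j (some g')) +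
          sg s i * ∑ j ∈ univ.filter (fun j => s j = none),
          sg (Function.update s i none) j *
            ∑ g' : ZMod p, f (Function.update (Function.update s i none) j (some g')) = 0 := by
        rw [mul_sum, ← sum_add_distrib]
        apply sum_eq_zero
        intro j hj
        simp only [mem_filter, mem_univ, true_and] at hj
        have hji : j ≠ i := by
          rintro rfl
          exact h1 hj
        rw [mul_sum, mul_sum, mul_sum, ← sum_add_distrib]
        apply sum_eq_zero
        intro g' _
        unfold EE
        rw [Function.update_of_ne (Ne.symm hji), if_pos h2,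
          Function.update_comm (Ne.symm hji)]
        rcases lt_or_gt_of_ne hji with hlt | hgt
        · rw [sg_update_some _ _ hlt hj, sg_update_ge _ _ hlt.le]
          ring
        · rw [sg_update_ge _ _ hgt.le, sg_update_none _ hgt h1]
          ring
      linear_combination e3
    · -- another value
      rw [hf s h1 h2]
      have e1 : EE g i (dd f) s = 0 := by
        unfold EE
        rw [if_neg h2]
      rw [e1, add_zero]
      unfold dd
      apply sum_eq_zero
      intro j hj
      simp only [mem_filter, mem_univ, true_and] at hj
      have hji : j ≠ i := by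
        rintro rfl
        exact h1 hj
      rw [sum_eq_zero, mul_zero]
      intro g' _
      unfold EE
      rw [Function.update_of_ne (Ne.symm hji), if_neg h2]

theorem dd_dd [NeZero p] (hp : (2 : ZMod p) ≠ 0) [Fact p.Prime] (f : LL m p) (s : Cfg m p) :
    dd (dd f) s = 0 := by
  classical
  let A : Fin m → Fin m → ZMod p := fun i j =>
    if i ≠ j ∧ s i = none ∧ s j = none then
      ∑ g : ZMod p, ∑ g' : ZMod p, sg s i * sg (Function.update s i (some g)) j *
        f (Function.update (Function.update s i (some g)) j (some g')) else 0
  have hA : dd (dd f) s = ∑ i, ∑ j, A i j := by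
    unfold dd
    rw [sum_filter]
    apply sum_congr rfl
    intro i _
    by_cases hi : s i = none
    · rw [if_pos hi, mul_sum]
      have e1 : ∀ g : ZMod p, sg s i * ∑ j ∈ univ.filter
          (fun j => Function.update s i (some g) j = none), sg (Function.update s i (some g)) j *
            ∑ g' : ZMod p, f (Function.update (Function.update s i (some g)) j (some g')) =
          ∑ j, if i ≠ j ∧ s i = none ∧ s j = none then ∑ g' : ZMod p,
            sg s i * sg (Function.update s i (some g)) j *
              f (Function.update (Function.update s i (some g)) j (some g')) else 0 := by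
        intro g
        rw [sum_filter, mul_sum]
        apply sum_congr rfl
        intro j _
        by_cases hij : j = i
        · subst hij
          simp
        · rw [Function.update_of_ne hij]
          by_cases hj : s j = none
          · rw [if_pos hj, if_pos ⟨Ne.symm hij, hi, hj⟩, ← mul_assoc, mul_sum]
          · rw [if_neg hj, if_neg (fun h => hj h.2.2), mul_zero]
      rw [sum_congr rfl (fun g _ => e1 g), sum_comm]
      apply sum_congr rfl
      intro j _
      show _ = A i j
      by_cases hc : i ≠ j ∧ s i = none ∧ s j = none
      · simp only [A, if_pos hc]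
      · simp only [A, if_neg hc, sum_const_zero]
    · rw [if_neg hi]
      symm
      apply sum_eq_zero
      intro j _
      exact if_neg (fun h => hi h.2.1)
  have hanti : ∀ i j, A i j = - A j i := by
    intro i j
    by_cases hc : i ≠ j ∧ s i = none ∧ s j = none
    · have hc' : j ≠ i ∧ s j = none ∧ s i = none := ⟨hc.1.symm, hc.2.2, hc.2.1⟩
      simp only [A, if_pos hc, if_pos hc']
      rw [sum_comm, ← sum_neg_distrib]
      apply sum_congr rfl
      intro g' _
      rw [← sum_neg_distrib]
      apply sum_congr rfl
      intro g _
      rw [Function.update_comm hc.1]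
      rcases lt_or_gt_of_ne hc.1 with hlt | hgt
      · rw [sg_update_some _ _ hlt hc.2.1, sg_update_ge _ _ hlt.le]
        ring
      · rw [sg_update_some _ _ hgt hc.2.2, sg_update_ge _ _ hgt.le]
        ring
    · have hc' : ¬ (j ≠ i ∧ s j = none ∧ s i = none) := fun h => hc ⟨h.1.symm, h.2.2, h.2.1⟩
      simp only [A, if_neg hc, if_neg hc', neg_zero]
  rw [hA]
  have h1 : ∑ i, ∑ j, A i j = - ∑ i, ∑ j, A i j := by
    conv_lhs => rw [sum_comm]
    rw [← sum_neg_distrib]
    apply sum_congr rfl
    intro i _
    rw [← sum_neg_distrib]
    apply sum_congr rfl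
    intro j _
    exact hanti j i
  have h2 : (2 : ZMod p) * ∑ i, ∑ j, A i j = 0 := by linear_combination h1
  rcases mul_eq_zero.mp h2 with h | h
  · exact absurd h hp
  · exact h

/-! ### the shift -/

theorem shC_none (s : Cfg m p) (i : Fin m) : shC s i = none ↔ s i = none := by
  unfold shC
  simp

theorem shC_update (s : Cfg m p) (i : Fin m) (a : Option (ZMod p)) :
    shC (Function.update s i a) = Function.update (shC s) i (a.map (fun g => g + 1)) := by
  ext1 j
  by_cases h : j = i
  · subst h
    simp [shC]
  · simp [shC, Function.update_of_ne h]

theorem sg_shC (s : Cfg m p) (i : Fin m) : sg (shC s) i = sg s i :=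
  sg_congr (fun j _ => not_congr (shC_none s j))

theorem deg_shC (s : Cfg m p) : deg (shC s) = deg s := by
  unfold deg
  congr 1
  ext j
  simp only [mem_filter, mem_univ, true_and]
  exact not_congr (shC_none s j)

theorem deg_shC_iter (s : Cfg m p) (j : ℕ) : deg (shC^[j] s) = deg s := by
  induction j with
  | zero => rfl
  | succ j ih => rw [Function.iterate_succ_apply', deg_shC, ih]

theorem shC_emp : shC (emp : Cfg m p) = emp := by
  ext1 j
  simp [shC, emp]

theorem shC_iter_emp (j : ℕ) : shC^[j] (emp : Cfg m p) = emp := by
  induction j with
  | zero => rfl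
  | succ j ih => rw [Function.iterate_succ_apply', ih, shC_emp]

theorem shC_iter (s : Cfg m p) (j : ℕ) :
    shC^[j] s = fun i => (s i).map (fun g => g + (j : ZMod p)) := by
  induction j with
  | zero =>
    ext1 i
    simp
  | succ j ih =>
    rw [Function.iterate_succ_apply', ih]
    ext1 i
    unfold shC
    rw [Option.map_map]
    congr 1
    ext g
    simp [add_assoc]

theorem shC_iter_p (s : Cfg m p) : shC^[p] s = s := by
  rw [shC_iter]
  ext1 i
  simp

theorem TT_EE (g : ZMod p) (i : Fin m) (f : LL m p) : TT (EE g i f) = EE (g - 1) i (TT f) := by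
  ext1 s
  unfold TT EE
  rw [sg_shC]
  have h1 : (shC s i = some g) ↔ (s i = some (g - 1)) := by
    unfold shC
    rw [Option.map_eq_some_iff]
    constructor
    · rintro ⟨a, ha, rfl⟩
      simpa using ha
    · intro h
      exact ⟨g - 1, h, by ring⟩
  have h2 : shC (Function.update s i none) = Function.update (shC s) i none := by
    rw [shC_update]
    rfl
  by_cases h : s i = some (g - 1)
  · rw [if_pos (h1.2 h), if_pos h]
    show sg s i * f (Function.update (shC s) i none) =
      sg s i * f (shC (Function.update s i none))
    rw [h2]
  · rw [if_neg (fun h' => h (h1.1 h')), if_neg h]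

theorem TT_one : TT (one : LL m p) = one := by
  ext1 s
  unfold TT one
  have : shC s = emp ↔ s = emp := by
    constructor
    · intro h
      ext1 i
      have := congrFun h i
      exact (shC_none s i).1 this
    · rintro rfl
      exact shC_emp
  by_cases h : s = emp
  · rw [if_pos (this.2 h), if_pos h]
  · rw [if_neg (fun h' => h (this.1 h')), if_neg h]

theorem TT_dd [NeZero p] (f : LL m p) : TT (dd f) = dd (TT f) := by
  ext1 s
  unfold TT dd
  have h1 : univ.filter (fun i => shC s i = none) = univ.filter (fun i => s i = none) := by
    ext i
    simp only [mem_filter, mem_univ, true_and]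
    exact shC_none s i
  rw [h1]
  apply sum_congr rfl
  intro i _
  rw [sg_shC]
  congr 1
  symm
  apply Fintype.sum_equiv (Equiv.addRight (1 : ZMod p))
  intro g
  show f (shC (Function.update s i (some g))) = _
  rw [shC_update]
  rfl

theorem dd_add [NeZero p] (f g : LL m p) : dd (f + g) = dd f + dd g := by
  ext1 s
  unfold dd
  simp only [Pi.add_apply, sum_add_distrib, mul_add]

theorem dd_neg [NeZero p] (f : LL m p) : dd (-f) = - dd f := by
  ext1 s
  unfold dd
  simp only [Pi.neg_apply, sum_neg_distrib, mul_neg]

theorem dd_sub [NeZero p] (f g : LL m p) : dd (f - g) = dd f - dd g := by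
  rw [sub_eq_add_neg, dd_add, dd_neg, ← sub_eq_add_neg]

theorem dd_zero [NeZero p] : dd (0 : LL m p) = 0 := by
  ext1 s
  unfold dd
  simp

theorem TT_add (f g : LL m p) : TT (f + g) = TT f + TT g := rfl

theorem TT_sub (f g : LL m p) : TT (f - g) = TT f - TT g := rfl

theorem TT_zero : TT (0 : LL m p) = 0 := rfl

theorem TT_iter_apply (f : LL m p) (j : ℕ) (s : Cfg m p) : (TT^[j] f) s = f (shC^[j] s) := by
  induction j generalizing s with
  | zero => rfl
  | succ j ih =>
    rw [Function.iterate_succ_apply', Function.iterate_succ_apply]
    unfold TT at *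
    exact ih _

/-- the norm operator -/
def NN (f : LL m p) : LL m p := ∑ j ∈ range p, TT^[j] f

theorem NN_apply (f : LL m p) (s : Cfg m p) : NN f s = ∑ j ∈ range p, f (shC^[j] s) := by
  unfold NN
  rw [Finset.sum_apply]
  apply sum_congr rfl
  intro j _
  exact TT_iter_apply f j s

theorem dd_TT_iter [NeZero p] (f : LL m p) (j : ℕ) : dd (TT^[j] f) = TT^[j] (dd f) := by
  induction j with
  | zero => rfl
  | succ j ih => rw [Function.iterate_succ_apply', Function.iterate_succ_apply', ← TT_dd, ih]

theorem dd_sum [NeZero p] {ι : Type*} (S : Finset ι) (f : ι → LL m p) :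
    dd (∑ j ∈ S, f j) = ∑ j ∈ S, dd (f j) := by
  classical
  induction S using Finset.induction_on with
  | empty => simp [dd_zero]
  | insert a S ha ih => rw [sum_insert ha, sum_insert ha, dd_add, ih]

theorem dd_NN [NeZero p] (f : LL m p) : dd (NN f) = NN (dd f) := by
  unfold NN
  rw [dd_sum]
  apply sum_congr rfl
  intro j _
  exact dd_TT_iter f j

theorem NN_sub (f g : LL m p) : NN (f - g) = NN f - NN g := by
  ext1 s
  simp only [NN_apply, Pi.sub_apply, sum_sub_distrib]

/-! ### the free action in positive degree -/

theorem exists_some {s : Cfg m p} (h : s ≠ emp) : ∃ i, s i ≠ none := by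
  by_contra hcon
  push Not at hcon
  exact h (funext hcon)

/-- the set of indices in use -/
def pat (s : Cfg m p) : Fin m → Prop := fun i => s i ≠ none

open Classical in
/-- a value of the configuration, chosen by means of the set of indices in use only -/
noncomputable def rho (s : Cfg m p) : ZMod p :=
  if h : ∃ i, pat s i then (s h.choose).getD 0 else 0

theorem rho_shC {s : Cfg m p} (h : s ≠ emp) : rho (shC s) = rho s + 1 := by
  have hp : pat (shC s) = pat s := by
    ext i
    exact not_congr (shC_none s i)
  have h1 : ∃ i, pat s i := exists_some h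
  have h2 : ∃ i, pat (shC s) i := by rw [hp]; exact h1
  unfold rho
  rw [dif_pos h1, dif_pos h2]
  have h3 : h2.choose = h1.choose := by
    congr 1
  rw [h3]
  obtain ⟨g, hg⟩ := Option.ne_none_iff_exists'.mp h1.choose_spec
  unfold shC
  rw [hg]
  rfl

theorem shC_ne_emp {s : Cfg m p} (h : s ≠ emp) : shC s ≠ emp := by
  intro h'
  apply h
  ext1 i
  exact (shC_none s i).1 (congrFun h' i)

theorem shC_iter_ne_emp {s : Cfg m p} (h : s ≠ emp) (j : ℕ) : shC^[j] s ≠ emp := by
  induction j with
  | zero => exact h
  | succ j ih =>
    rw [Function.iterate_succ_apply']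
    exact shC_ne_emp ih

theorem rho_shC_iter {s : Cfg m p} (h : s ≠ emp) (j : ℕ) : rho (shC^[j] s) = rho s + j := by
  induction j with
  | zero => simp
  | succ j ih =>
    rw [Function.iterate_succ_apply', rho_shC (shC_iter_ne_emp h j), ih]
    push_cast
    ring

theorem ker_one [NeZero p] {k : ℕ} {f : LL m p} (hf : TT f = f) (hk : ∀ s, f s ≠ 0 → deg s = k + 1) :
    ∃ h : LL m p, f = NN h ∧ ∀ s, h s ≠ 0 → deg s = k + 1 := by
  classical
  have hemp : f emp = 0 := by
    by_contra hne
    have := hk _ hne
    simp [deg, emp] at this
  have hiter : ∀ j s, f (shC^[j] s) = f s := by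
    intro j
    induction j with
    | zero => intro s; rfl
    | succ j ih =>
      intro s
      rw [Function.iterate_succ_apply]
      rw [ih]
      exact congrFun hf s
  refine ⟨fun s => if rho s = 0 then f s else 0, ?_, ?_⟩
  · ext1 s
    rw [NN_apply]
    by_cases hs : s = emp
    · subst hs
      simp only [shC_iter_emp, hemp]
      simp
    · rw [sum_eq_single (-(rho s)).val]
      · rw [rho_shC_iter hs, hiter]
        simp
      · intro j hj hne
        rw [rho_shC_iter hs, if_neg]
        intro h0
        apply hne
        have h1 : (j : ZMod p) = - rho s := by linear_combination h0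
        rw [← h1, ZMod.val_natCast, Nat.mod_eq_of_lt (mem_range.mp hj)]
      · intro h
        exact absurd (mem_range.mpr (ZMod.val_lt _)) h
  · intro s hs
    apply hk
    by_contra h0
    apply hs
    show (if rho s = 0 then f s else 0) = 0
    split_ifs
    · exact h0
    · rfl

theorem ker_norm [NeZero p] {k : ℕ} {f : LL m p} (hf : NN f = 0)
    (hk : ∀ s, f s ≠ 0 → deg s = k + 1) :
    ∃ h : LL m p, f = TT h - h ∧ ∀ s, h s ≠ 0 → deg s = k + 1 := by
  classical
  have hemp : f emp = 0 := by
    by_contra hne
    have := hk _ hne
    simp [deg, emp] at this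
  have hp : 0 < p := Nat.pos_of_ne_zero (NeZero.ne p)
  refine ⟨fun s => ∑ i ∈ range (rho s).val, f (shC^[i] (shC^[p - (rho s).val] s)), ?_, ?_⟩
  · ext1 s
    show f s = (∑ i ∈ range (rho (shC s)).val, f (shC^[i] (shC^[p - (rho (shC s)).val] (shC s)))) -
      ∑ i ∈ range (rho s).val, f (shC^[i] (shC^[p - (rho s).val] s))
    by_cases hs : s = emp
    · subst hs
      simp [shC_emp, shC_iter_emp, hemp]
    · have hlt : (rho s).val < p := ZMod.val_lt _
      rw [rho_shC hs]
      by_cases hv : (rho s).val + 1 < p
      · have hv1 : (rho s + 1).val = (rho s).val + 1 := by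
          have h1 : rho s + 1 = (((rho s).val + 1 : ℕ) : ZMod p) := by
            push_cast
            rw [ZMod.natCast_zmod_val]
          rw [h1, ZMod.val_natCast, Nat.mod_eq_of_lt hv]
        rw [hv1]
        have hb : shC^[p - ((rho s).val + 1)] (shC s) = shC^[p - (rho s).val] s := by
          rw [← Function.iterate_succ_apply]
          congr 1
          omega
        rw [hb, sum_range_succ]
        have h2 : shC^[(rho s).val] (shC^[p - (rho s).val] s) = s := by
          rw [← Function.iterate_add_apply]
          have : (rho s).val + (p - (rho s).val) = p := by omega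
          rw [this, shC_iter_p]
        rw [h2]
        ring
      · have hv' : (rho s).val = p - 1 := by omega
        have hz : rho s + 1 = 0 := by
          have h1 : rho s + 1 = (((rho s).val + 1 : ℕ) : ZMod p) := by
            push_cast
            rw [ZMod.natCast_zmod_val]
          rw [h1, hv', Nat.sub_add_cancel hp]
          simp
        rw [hz]
        have hn := congrFun hf (shC s)
        rw [NN_apply] at hn
        have hsplit : p = (p - 1) + 1 := by omega
        have hr : range p = range ((p - 1) + 1) := by rw [← hsplit]
        rw [hr, sum_range_succ] at hn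
        have h2 : shC^[p - 1] (shC s) = s := by
          rw [← Function.iterate_succ_apply]
          have : (p - 1).succ = p := by omega
          rw [this, shC_iter_p]
        rw [h2] at hn
        have h3 : shC^[p - (rho s).val] s = shC s := by
          have : p - (rho s).val = 1 := by omega
          rw [this]
          rfl
        rw [h3, hv']
        simp only [ZMod.val_zero, range_zero, sum_empty, zero_sub]
        simp only [Pi.zero_apply] at hn
        linear_combination hn
  · intro s hs
    obtain ⟨i, _, hi⟩ := exists_ne_zero_of_sum_ne_zero hs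
    have := hk _ hi
    rwa [deg_shC_iter, deg_shC_iter] at this

theorem deg_update_some {s : Cfg m p} {i : Fin m} (hi : s i = none) (g : ZMod p) :
    deg (Function.update s i (some g)) = deg s + 1 := by
  unfold deg
  have : univ.filter (fun l => Function.update s i (some g) l ≠ none) =
      insert i (univ.filter (fun l => s l ≠ none)) := by
    ext l
    simp only [mem_filter, mem_univ, true_and, mem_insert]
    by_cases hl : l = i
    · subst hl
      simp
    · rw [Function.update_of_ne hl]
      simp [hl]
  rw [this, card_insert_of_notMem]
  simp [hi]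

theorem deg_dd [NeZero p] {k : ℕ} {f : LL m p} (hk : ∀ s, f s ≠ 0 → deg s = k + 1) :
    ∀ s, dd f s ≠ 0 → deg s = k := by
  intro s hs
  unfold dd at hs
  obtain ⟨i, hi, h1⟩ := exists_ne_zero_of_sum_ne_zero hs
  simp only [mem_filter, mem_univ, true_and] at hi
  obtain ⟨g, _, h2⟩ := exists_ne_zero_of_sum_ne_zero (right_ne_zero_of_mul h1)
  have := hk _ h2
  rw [deg_update_some hi] at this
  omega

theorem deg_le (s : Cfg m p) : deg s ≤ m := by
  unfold deg
  refine (card_filter_le _ _).trans ?_
  simp

/-- the algebraic contradiction -/
theorem algebra_contra [Fact p.Prime] (hp : (2 : ZMod p) ≠ 0) (c : ℕ → LL m p)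
    (hdeg : ∀ k s, c k s ≠ 0 → deg s = k + 1) (h0 : dd (c 0) emp = 1)
    (hstep : ∀ k < m, dd (c (k + 1)) = if Even k then TT (c k) - c k else NN (c k)) : False := by
  have key : ∀ j ≤ m, ∃ a b : LL m p, (∀ s, a s ≠ 0 → deg s = (m - j) + 1) ∧
      (∀ s, b s ≠ 0 → deg s = (m - j) + 1 + 1) ∧
      c (m - j) = dd b + (if Even (m - j) then NN a else TT a - a) := by
    intro j
    induction j with
    | zero =>
      intro _
      refine ⟨0, 0, by simp, by simp, ?_⟩
      have hc : c (m - 0) = 0 := by
        ext1 s
        by_contra hne
        have h1 := hdeg _ _ hne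
        have h2 := deg_le s
        omega
      rw [hc, dd_zero, TT_zero]
      have : NN (0 : LL m p) = 0 := by
        ext1 s
        rw [NN_apply]
        simp
      rw [this]
      simp
    | succ j ih =>
      intro hj
      obtain ⟨a, b, ha, hb, hab⟩ := ih (by omega)
      set k := m - (j + 1) with hk
      have hk1 : m - j = k + 1 := by omega
      rw [hk1] at ha hb hab
      have hkm : k < m := by omega
      have hs := hstep k hkm
      have hda : ∀ s, dd a s ≠ 0 → deg s = k + 1 := deg_dd ha
      have hfdeg : ∀ s, (c k - dd a) s ≠ 0 → deg s = k + 1 := by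
        intro s hs
        by_contra hne
        apply hs
        have h1 : c k s = 0 := by
          by_contra h
          exact hne (hdeg _ _ h)
        have h2 : dd a s = 0 := by
          by_contra h
          exact hne (hda _ h)
        simp [h1, h2]
      have hddb : dd (dd b) = 0 := funext (fun s => dd_dd hp b s)
      by_cases he : Even k
      · have hne : ¬ Even (k + 1) := by
          rw [Nat.even_add_one]
          simpa using he
        rw [if_neg hne] at hab
        rw [if_pos he] at hs
        rw [hab, dd_add, hddb, zero_add, dd_sub, ← TT_dd] at hs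
        have hfix : TT (c k - dd a) = c k - dd a := by
          rw [TT_sub]
          have h1 : TT (c k) = TT (dd a) - dd a + c k := by
            rw [hs]
            abel
          rw [h1]
          abel
        obtain ⟨h, hh, hhd⟩ := ker_one hfix hfdeg
        refine ⟨h, a, hhd, ha, ?_⟩
        rw [if_pos he, ← hh]
        abel
      · have hne : Even (k + 1) := by
          rw [Nat.even_add_one]
          exact he
        rw [if_pos hne] at hab
        rw [if_neg he] at hs
        rw [hab, dd_add, hddb, zero_add, dd_NN] at hs
        have hfix : NN (c k - dd a) = 0 := by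
          rw [NN_sub, hs, sub_self]
        obtain ⟨h, hh, hhd⟩ := ker_norm hfix hfdeg
        refine ⟨h, a, hhd, ha, ?_⟩
        rw [if_neg he, ← hh]
        abel
  obtain ⟨a, b, ha, hb, hab⟩ := key m le_rfl
  rw [Nat.sub_self] at hab
  rw [if_pos (by decide : Even 0)] at hab
  rw [hab, dd_add, Pi.add_apply, dd_dd hp, zero_add, dd_NN, NN_apply] at h0
  simp only [shC_iter_emp, sum_const, card_range, nsmul_eq_mul] at h0
  simp at h0

end Pool.Agent.Lib.MP_3f8c0b_an
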