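import Pool.Agent.Lib.MP_3f8c0b_an.Label

/-!
# MP_3f8c0b_an: the Borsuk-Ulam theorem for `ZMod p` (Barany, Shlosman, Szucs)
-/

set_option autoImplicit false

open Finset

namespace Pool.Agent.Lib.MP_3f8c0b_an

variable {n p : ℕ}

/-! ### gap sets -/

/-- the values of `f` on `A` exceed the values outside of `A` by at least `δ` -/
def IsGap (f : ZMod p → ℝ) (δ : ℝ) (A : Finset (ZMod p)) : Prop :=
  A.Nonempty ∧ (∃ b, b ∉ A) ∧ ∀ a ∈ A, ∀ b ∉ A, f b + δ ≤ f a

theorem exists_gap [NeZero p] (f : ZMod p → ℝ) {ε : ℝ} (hε : 0 < ε) {g g' : ZMod p}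
    (h : f g' + ε ≤ f g) : ∃ A, IsGap f (ε / p) A := by
  classical
  have hp : (0 : ℝ) < p := by exact_mod_cast Nat.pos_of_ne_zero (NeZero.ne p)
  set δ := ε / p with hδ
  have hδ0 : 0 < δ := by positivity
  have hpδ : p * δ = ε := by
    rw [hδ]
    field_simp
  obtain ⟨k, hk, hk'⟩ : ∃ k < p, ∀ a, ¬ (f g' + k * δ < f a ∧ f a < f g' + (k + 1) * δ) := by
    by_contra hcon
    push Not at hcon
    choose! φ hφ using hcon
    have hinj : Set.InjOn φ (range p : Finset ℕ) := by
      intro a ha b hb hab
      have ha' := hφ a (by simpa using ha)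
      have hb' := hφ b (by simpa using hb)
      rw [hab] at ha'
      by_contra hne
      rcases Nat.lt_or_gt_of_ne hne with hlt | hlt
      · have h1 : (a : ℝ) + 1 ≤ b := by exact_mod_cast hlt
        have : (a + 1) * δ ≤ b * δ := by gcongr
        linarith [ha'.2, hb'.1]
      · have h1 : (b : ℝ) + 1 ≤ a := by exact_mod_cast hlt
        have : (b + 1) * δ ≤ a * δ := by gcongr
        linarith [hb'.2, ha'.1]
    have hcard : ((range p).image φ).card = Fintype.card (ZMod p) := by
      rw [card_image_of_injOn hinj, card_range, ZMod.card]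
    have huniv := Finset.eq_univ_of_card _ hcard
    have hg' : g' ∈ (range p).image φ := by rw [huniv]; exact mem_univ _
    obtain ⟨a, ha, hag⟩ := mem_image.mp hg'
    have := (hφ a (by simpa using ha)).1
    rw [hag] at this
    have : 0 ≤ (a : ℝ) * δ := by positivity
    linarith
  refine ⟨univ.filter (fun a => f g' + (k + 1) * δ ≤ f a), ⟨g, ?_⟩, ⟨g', ?_⟩, ?_⟩
  · rw [mem_filter]
    refine ⟨mem_univ _, ?_⟩
    have h1 : (k : ℝ) + 1 ≤ p := by exact_mod_cast hk
    have : (k + 1) * δ ≤ p * δ := by gcongr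
    linarith
  · rw [mem_filter]
    rintro ⟨-, h1⟩
    have : 0 ≤ (k : ℝ) * δ := by positivity
    linarith
  · intro a ha b hb
    rw [mem_filter] at ha hb
    have h1 := ha.2
    have h2 : f b < f g' + (k + 1) * δ := by
      by_contra hcon
      exact hb ⟨mem_univ _, not_lt.mp hcon⟩
    have h3 : f b ≤ f g' + k * δ := by
      by_contra hcon
      exact hk' b ⟨not_le.mp hcon, h2⟩
    linarith

theorem gap_unique {f f' : ZMod p → ℝ} {δ : ℝ} {A A' : Finset (ZMod p)}
    (hA : IsGap f δ A) (hA' : IsGap f' δ A') (h : ∀ a, |f a - f' a| < δ / 2)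
    (hc : A.card = A'.card) : A = A' := by
  classical
  by_contra hne
  have h1 : (A \ A').Nonempty := by
    rw [sdiff_nonempty]
    intro hsub
    exact hne (eq_of_subset_of_card_le hsub hc.ge)
  have h2 : (A' \ A).Nonempty := by
    rw [sdiff_nonempty]
    intro hsub
    exact hne (eq_of_subset_of_card_le hsub hc.le).symm
  obtain ⟨a, ha⟩ := h1
  obtain ⟨b, hb⟩ := h2
  rw [mem_sdiff] at ha hb
  have e1 := hA.2.2 a ha.1 b hb.2
  have e2 := hA'.2.2 b hb.1 a ha.2
  have e3 := abs_lt.mp (h a)
  have e4 := abs_lt.mp (h b)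
  linarith [e3.1, e3.2, e4.1, e4.2]

theorem gap_shift [NeZero p] {f : ZMod p → ℝ} {δ : ℝ} {A : Finset (ZMod p)} (hA : IsGap f δ A) :
    IsGap (fun g => f (g + 1)) δ (A.image (fun a => a - 1)) := by
  classical
  obtain ⟨⟨a, ha⟩, ⟨b, hb⟩, h⟩ := hA
  have hmem : ∀ g, g ∈ A.image (fun a => a - 1) ↔ g + 1 ∈ A := by
    intro g
    rw [mem_image]
    constructor
    · rintro ⟨a, ha, rfl⟩
      simpa using ha
    · intro h
      exact ⟨g + 1, h, by ring⟩
  refine ⟨⟨a - 1, (hmem _).2 (by simpa using ha)⟩, ⟨b - 1, fun h => hb ?_⟩, ?_⟩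
  · have := (hmem _).1 h
    simpa using this
  · intro g hg g' hg'
    exact h (g + 1) ((hmem _).1 hg) (g' + 1) (fun h => hg' ((hmem _).2 h))

/-- the barycentre of a set of residues -/
def bary [Fact p.Prime] (A : Finset (ZMod p)) : ZMod p := (∑ a ∈ A, a) * ((A.card : ZMod p))⁻¹

theorem bary_shift [Fact p.Prime] {A : Finset (ZMod p)} (h0 : A.Nonempty) (h1 : ∃ b, b ∉ A) :
    bary (A.image (fun a => a - 1)) = bary A - 1 := by
  classical
  have hinj : Function.Injective (fun a : ZMod p => a - 1) := sub_left_injective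
  have hcard : A.card < p := by
    obtain ⟨b, hb⟩ := h1
    have : A ⊂ univ := by
      rw [ssubset_univ_iff]
      rintro rfl
      exact hb (mem_univ _)
    have := card_lt_card this
    rwa [card_univ, ZMod.card] at this
  have hne : (A.card : ZMod p) ≠ 0 := by
    rw [Ne, ZMod.natCast_eq_zero_iff]
    intro hdvd
    exact absurd (Nat.le_of_dvd h0.card_pos hdvd) (by omega)
  unfold bary
  rw [card_image_of_injective _ hinj, sum_image (fun a _ b _ h => hinj h), sum_sub_distrib]
  simp only [sum_const, nsmul_eq_mul, mul_one]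
  field_simp

/-! ### compactness of the join -/

theorem isClosed_XE [NeZero p] (k : ℕ) : IsClosed (XE n p k) := by
  have e : XE n p k = (⋂ i, ⋂ g, {x : Pt n p | 0 ≤ x i g}) ∩
      ({x : Pt n p | ∑ i, ∑ g, x i g = 1} ∩
      ((⋂ i, ⋂ g, ⋂ g', {x : Pt n p | g = g' ∨ x i g * x i g' = 0}) ∩
        ⋂ i : Fin n, ⋂ g, {x : Pt n p | k < (i : ℕ) → x i g = 0})) := by
    ext x
    unfold XE
    simp only [Set.mem_setOf_eq, Set.mem_inter_iff, Set.mem_iInter]
    constructor
    · rintro ⟨h1, h2, h3, h4⟩
      refine ⟨h1, h2, ?_, fun i g hi => h4 i hi g⟩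
      intro i g g'
      by_contra hcon
      push Not at hcon
      exact hcon.1 (h3 i g g' (left_ne_zero_of_mul hcon.2) (right_ne_zero_of_mul hcon.2))
    · rintro ⟨h1, h2, h3, h4⟩
      refine ⟨h1, h2, ?_, fun i hi g => h4 i g hi⟩
      intro i g g' hg hg'
      rcases h3 i g g' with h | h
      · exact h
      · rcases mul_eq_zero.mp h with h | h
        · exact absurd h hg
        · exact absurd h hg'
  rw [e]
  refine IsClosed.inter ?_ (IsClosed.inter ?_ (IsClosed.inter ?_ ?_))
  · refine isClosed_iInter (fun i => isClosed_iInter (fun g => ?_))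
    exact isClosed_le continuous_const (by fun_prop)
  · exact isClosed_eq (by fun_prop) continuous_const
  · refine isClosed_iInter (fun i => isClosed_iInter (fun g => isClosed_iInter (fun g' => ?_)))
    by_cases h : g = g'
    · simp [h]
    · simp only [h, false_or]
      exact isClosed_eq (by fun_prop) continuous_const
  · refine isClosed_iInter (fun i => isClosed_iInter (fun g => ?_))
    by_cases h : k < (i : ℕ)
    · simp only [h, forall_const]
      exact isClosed_eq (by fun_prop) continuous_const
    · simp [h]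

theorem isCompact_XE [NeZero p] (k : ℕ) : IsCompact (XE n p k) := by
  apply IsCompact.of_isClosed_subset (isCompact_univ_pi (fun _ : Fin n =>
    isCompact_univ_pi (fun _ : ZMod p => (isCompact_Icc : IsCompact (Set.Icc (0 : ℝ) 1)))))
    (isClosed_XE k)
  intro x hx i _ g _
  exact ⟨hx.1 i g, XE_le_one hx i g⟩

/-! ### the theorem -/

/-- the action of `ZMod p` -/
def Tg (g : ZMod p) (x : Pt n p) : Pt n p := fun i h => x i (h + g)

theorem Tg_eq_iter [NeZero p] (g : ZMod p) (x : Pt n p) : Tg g x = Ts^[g.val] x := by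
  have : ∀ j : ℕ, Ts^[j] x = fun i h => x i (h + j) := by
    intro j
    induction j with
    | zero => simp
    | succ j ih =>
      rw [Function.iterate_succ_apply', ih]
      unfold Ts
      ext i h
      push_cast
      ring_nf
  rw [this]
  unfold Tg
  simp

theorem Tg_Ts (g : ZMod p) (x : Pt n p) : Tg g (Ts x) = Tg (g + 1) x := by
  ext i h
  simp only [Tg, Ts]
  congr 1
  ring

open Classical in
/-- Borsuk-Ulam for `ZMod p`, `p` an odd prime -/
theorem bu [Fact p.Prime] (hp : (2 : ZMod p) ≠ 0) {d : ℕ} (hn : d * (p - 1) < n)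
    (F : Pt n p → Fin d → ℝ) (hF : ContinuousOn F (XE n p n)) :
    ∃ x ∈ XE n p n, ∀ g : ZMod p, F (Tg g x) = F x := by
  by_contra hcon
  push Not at hcon
  have hmemg : ∀ x ∈ XE n p n, ∀ g : ZMod p, Tg g x ∈ XE n p n := by
    intro x hx g
    rw [Tg_eq_iter]
    exact Ts_iter_mem hx _
  have hcontT : ∀ g : ZMod p, Continuous (Tg g : Pt n p → Pt n p) := by
    intro g
    unfold Tg
    fun_prop
  -- the spread is bounded below
  set D : Pt n p → ℝ := fun x => ∑ c, ∑ g : ZMod p, |F (Tg g x) c - F x c| with hD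
  have hDcont : ContinuousOn D (XE n p n) := by
    apply continuousOn_finsetSum
    intro c _
    apply continuousOn_finsetSum
    intro g _
    apply ContinuousOn.abs
    apply ContinuousOn.sub
    · have h1 : ContinuousOn (fun x => F (Tg g x)) (XE n p n) :=
        hF.comp (hcontT g).continuousOn (fun x hx => hmemg x hx g)
      exact (continuous_apply c).comp_continuousOn h1
    · exact (continuous_apply c).comp_continuousOn hF
  have hDpos : ∀ x ∈ XE n p n, 0 < D x := by
    intro x hx
    obtain ⟨g, hg⟩ := hcon x hx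
    obtain ⟨c, hc⟩ := Function.ne_iff.mp hg
    have h1 : 0 < |F (Tg g x) c - F x c| := abs_pos.mpr (sub_ne_zero.mpr hc)
    calc 0 < |F (Tg g x) c - F x c| := h1
      _ ≤ ∑ g : ZMod p, |F (Tg g x) c - F x c| :=
        single_le_sum (f := fun g : ZMod p => |F (Tg g x) c - F x c|)
          (fun _ _ => abs_nonneg _) (mem_univ g)
      _ ≤ D x := single_le_sum (f := fun c => ∑ g : ZMod p, |F (Tg g x) c - F x c|)
          (fun _ _ => sum_nonneg (fun _ _ => abs_nonneg _)) (mem_univ c)
  obtain ⟨D0, hD0, hD1⟩ := (isCompact_XE n).exists_forall_le' hDcont hDpos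
  have hpR : (0 : ℝ) < p := by exact_mod_cast Nat.pos_of_ne_zero (NeZero.ne p)
  set ε : ℝ := D0 / (d * p + 1) with hε
  have hε0 : 0 < ε := by positivity
  have hspread : ∀ x ∈ XE n p n, ∃ c, ∃ g g' : ZMod p, F (Tg g' x) c + ε ≤ F (Tg g x) c := by
    intro x hx
    by_contra hno
    push Not at hno
    have h0 : ∀ c, F (Tg 0 x) c = F x c := by
      intro c
      congr 2
      ext i h
      simp [Tg]
    have h1 : ∀ c, ∀ g : ZMod p, |F (Tg g x) c - F x c| ≤ ε := by
      intro c g
      have a1 := hno c g 0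
      have a2 := hno c 0 g
      rw [h0] at a1 a2
      rw [abs_le]
      constructor <;> linarith
    have h2 : D x ≤ ∑ _c : Fin d, ∑ _g : ZMod p, ε :=
      sum_le_sum (fun c _ => sum_le_sum (fun g _ => h1 c g))
    simp only [sum_const, card_univ, Fintype.card_fin, ZMod.card, nsmul_eq_mul] at h2
    have h3 := hD1 x hx
    have h4 : (d * p + 1) * ε = D0 := by
      rw [hε]
      field_simp
    nlinarith
  set δ : ℝ := ε / p with hδ
  have hδ0 : 0 < δ := by positivity
  -- the index
  let Q : Pt n p → Fin d × Fin (p - 1) → Prop := fun x ci =>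
    ∃ A, IsGap (fun g => F (Tg g x) ci.1) δ A ∧ A.card = (ci.2 : ℕ) + 1
  have hQex : ∀ x ∈ XE n p n, ∃ ci, Q x ci := by
    intro x hx
    obtain ⟨c, g, g', h⟩ := hspread x hx
    obtain ⟨A, hA⟩ := exists_gap (fun g => F (Tg g x) c) hε0 h
    have h1 : 0 < A.card := hA.1.card_pos
    have h2 : A.card < p := by
      obtain ⟨b, hb⟩ := hA.2.1
      have : A ⊂ univ := by
        rw [ssubset_univ_iff]
        rintro rfl
        exact hb (mem_univ _)
      have := card_lt_card this
      rwa [card_univ, ZMod.card] at this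
    exact ⟨(c, ⟨A.card - 1, by omega⟩), A, hA, by simp; omega⟩
  have hshift : ∀ x c, (fun g => F (Tg g (Ts x)) c) = fun g => (fun g => F (Tg g x) c) (g + 1) := by
    intro x c
    ext1 g
    show F (Tg g (Ts x)) c = F (Tg (g + 1) x) c
    rw [Tg_Ts]
  have hQTs : ∀ x ci, Q x ci → Q (Ts x) ci := by
    rintro x ci ⟨A, hA, hc⟩
    refine ⟨A.image (fun a => a - 1), ?_, ?_⟩
    · rw [hshift]
      exact gap_shift hA
    · rw [card_image_of_injective _ sub_left_injective, hc]
  have hQTs' : ∀ x, Q (Ts x) = Q x := by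
    intro x
    ext1 ci
    apply propext
    constructor
    · intro h
      have : ∀ j : ℕ, Q (Ts^[j] (Ts x)) ci := by
        intro j
        induction j with
        | zero => exact h
        | succ j ih =>
          rw [Function.iterate_succ_apply']
          exact hQTs _ _ ih
      have h1 := this (p - 1)
      rw [← Function.iterate_succ_apply] at h1
      have h2 : (p - 1).succ = p := by
        have := (Fact.out : p.Prime).pos
        omega
      rw [h2, Ts_iter_p] at h1
      exact h1
    · exact hQTs x ci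
  let idx : (Fin d × Fin (p - 1) → Prop) → Fin d × Fin (p - 1) → Fin d × Fin (p - 1) :=
    fun q def0 => if h : ∃ ci, q ci then h.choose else def0
  have hn0 : 0 < n := by omega
  -- the labels
  let lam : Pt n p → ZMod p × Fin (d * (p - 1)) := fun x =>
    if h : ∃ ci, Q x ci then (bary (h.choose_spec.choose), finProdFinEquiv h.choose)
    else if h' : 0 < d * (p - 1) then (0, ⟨0, h'⟩) else
      (0, (Classical.choice (by
        exfalso
        have hne : (XE n p n).Nonempty := by
          refine ⟨vx n p 0, ?_⟩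
          obtain ⟨v1, v2, v3, v4⟩ := vx_mem (n := n) (p := p) hn0
          exact ⟨v1, v2, v3, fun i hi => absurd i.2 (by omega)⟩
        obtain ⟨x0, hx0⟩ := hne
        obtain ⟨ci, -⟩ := hQex x0 hx0
        have hd : 0 < d := ci.1.pos
        have hp1 : 0 < p - 1 := ci.2.pos
        exact h' (Nat.mul_pos hd hp1)) : Fin (d * (p - 1))))
  have hlam1 : ∀ x (h : ∃ ci, Q x ci),
      lam x = (bary (h.choose_spec.choose), finProdFinEquiv h.choose) := by
    intro x h
    exact dif_pos h
  have hchoose : ∀ x y (hx : ∃ ci, Q x ci) (hy : ∃ ci, Q y ci), Q x = Q y →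
      hx.choose = hy.choose := by
    intro x y hx hy h
    congr 1
  -- uniform continuity
  have huc := (isCompact_XE (n := n) (p := p) n).uniformContinuousOn_of_continuous hF
  rw [Metric.uniformContinuousOn_iff] at huc
  obtain ⟨η, hη, huc⟩ := huc (δ / 2) (by positivity)
  apply no_labelling hp hn lam (η := η / 2) ?_ (by positivity) ?_
  · -- equivariance
    intro x hx
    have h1 := hQex x hx
    have h2 := hQex (Ts x) (Ts_mem hx)
    rw [hlam1 x h1, hlam1 (Ts x) h2]
    have hch : h2.choose = h1.choose := hchoose _ _ h2 h1 (hQTs' x)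
    have s1 := h1.choose_spec.choose_spec
    have s2 := h2.choose_spec.choose_spec
    set A1 := h1.choose_spec.choose with hA1
    set A2 := h2.choose_spec.choose with hA2
    have hA : A2 = A1.image (fun a => a - 1) := by
      have g1 := gap_shift s1.1
      have s21 := s2.1
      rw [hshift] at s21
      have hcc : h2.choose.1 = h1.choose.1 := by rw [hch]
      rw [hcc] at s21
      apply gap_unique s21 g1
      · intro a
        simp only [sub_self, abs_zero]
        positivity
      · rw [s2.2, card_image_of_injective _ sub_left_injective, s1.2, hch]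
    rw [hA, bary_shift s1.1.1 s1.1.2.1, hch]
  · -- smallness
    intro x hx y hy hxy hidx
    have h1 := hQex x hx
    have h2 := hQex y hy
    rw [hlam1 x h1, hlam1 y h2] at hidx ⊢
    simp only [EmbeddingLike.apply_eq_iff_eq] at hidx
    have s1 := h1.choose_spec.choose_spec
    have s2 := h2.choose_spec.choose_spec
    set A1 := h1.choose_spec.choose with hA1
    set A2 := h2.choose_spec.choose with hA2
    have hA : A1 = A2 := by
      have s21 := s2.1
      have hcc : h2.choose.1 = h1.choose.1 := by rw [hidx]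
      rw [hcc] at s21
      apply gap_unique s1.1 s21
      · intro g
        have hd : dist (Tg g x) (Tg g y) < η := by
          rw [Tg_eq_iter, Tg_eq_iter]
          refine lt_of_le_of_lt ((dist_Ts_iter_le _ _ _).trans hxy) (by linarith)
        have h3 := huc (Tg g x) (hmemg x hx g) (Tg g y) (hmemg y hy g) hd
        have h4 := dist_le_pi_dist (F (Tg g x)) (F (Tg g y)) h1.choose.1
        rw [Real.dist_eq] at h4
        exact lt_of_le_of_lt h4 h3
      · rw [s2.2, s1.2, hidx]
    show bary A1 = bary A2
    rw [hA]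

end Pool.Agent.Lib.MP_3f8c0b_an
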