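import Mathlib

/-!
# Rounding maps into complexes of small dimension
-/

set_option autoImplicit false

namespace Pool.Agent.Lib.MP_3f8c0b_an

open Finset

section Stair

variable {J : Type} [Fintype J] {R : ℕ}

/-- the cell `v` of the staircase is nonempty -/
def Cell (θ : J → ℕ → ℝ) (v : J → Fin R) : Prop :=
  ∀ i j, θ j ((v j : ℕ) + 1) < θ i (v i)

theorem cell_exists {θ : J → ℕ → ℝ} (h0 : ∀ i, θ i 0 = 1)
    (hR : ∀ i, θ i R = 0) : ∃ v : J → Fin R, Cell θ v := by
  classical
  -- a generic level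
  obtain ⟨t, ht, htn⟩ : ∃ t ∈ Set.Ioo (0 : ℝ) 1, t ∉
      (Set.range fun x : J × Fin (R + 1) => θ x.1 x.2) := by
    by_contra hcon
    push Not at hcon
    have h1 : (Set.Ioo (0 : ℝ) 1).Finite := (Set.finite_range _).subset hcon
    exact (Set.Ioo_infinite (by norm_num)) h1
  have h1 : ∀ i, ∃ u, u < R ∧ θ i (u + 1) < t ∧ t < θ i u := by
    intro i
    have hex : ∃ u, θ i u < t := ⟨R, by rw [hR]; exact ht.1⟩
    obtain ⟨u, hu⟩ : ∃ u, Nat.find hex = u + 1 := by
      refine Nat.exists_eq_succ_of_ne_zero fun h => ?_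
      have := Nat.find_spec hex
      rw [h, h0] at this
      linarith [ht.2]
    have hfs := Nat.find_spec hex
    rw [hu] at hfs
    have hle : Nat.find hex ≤ R := Nat.find_min' hex (by rw [hR]; exact ht.1)
    have hu' : u < R := by omega
    refine ⟨u, hu', hfs, ?_⟩
    have h2 : ¬ θ i u < t := Nat.find_min hex (by omega)
    refine lt_of_le_of_ne (not_lt.1 h2) fun h => htn ⟨(i, ⟨u, by omega⟩), h.symm⟩
  choose u hu h2 h3 using h1
  exact ⟨fun i => ⟨u i, hu i⟩, fun i j => (h2 j).trans (h3 i)⟩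

/-- an index is bad if one of its values is strictly between `0` and `1` -/
def Frac (θ : J → ℕ → ℝ) (i : J) : Prop := ∃ u, 0 < θ i u ∧ θ i u < 1

open Classical in
theorem cell_card {θ : J → ℕ → ℝ} (hanti : ∀ i, Antitone (θ i)) (h01 : ∀ i u, 0 ≤ θ i u ∧ θ i u ≤ 1)
    (huniq : ∀ i u u', 0 < θ i u → θ i u < 1 → 0 < θ i u' → θ i u' < 1 → θ i u = θ i u') :
    (univ.filter fun v : J → Fin R => Cell θ v).card
      ≤ (univ.filter fun i : J => Frac θ i).card + 1 := by
  -- comparison of two cells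
  have hcmp : ∀ (v v' : J → Fin R), Cell θ v → Cell θ v' → ∀ t : ℝ,
      (∀ j, θ j ((v j : ℕ) + 1) ≤ t) → (t = 0 ∨ ∃ j, t = θ j ((v' j : ℕ) + 1)) →
      ∀ i, (v' i : ℕ) ≤ v i := by
    intro v v' hv hv' t h1 h2 i
    by_contra hcon
    push Not at hcon
    have h3 : θ i (v' i) ≤ t := (hanti i hcon).trans (h1 i)
    rcases h2 with h2 | ⟨j, h2⟩
    · have h4 := hv' i i
      have h5 := (h01 i ((v' i : ℕ) + 1)).1
      linarith
    · have h4 := hv' i j
      linarith
  -- the level of a cell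
  have hlev : ∀ v : J → Fin R, Cell θ v →
      ∃ o : Option J, (∀ j ∈ o, Frac θ j ∧ 0 < θ j ((v j : ℕ) + 1)) ∧
        ∀ i, θ i ((v i : ℕ) + 1) ≤ o.elim 0 fun j => θ j ((v j : ℕ) + 1) := by
    intro v hv
    by_cases h : ∀ i, θ i ((v i : ℕ) + 1) ≤ 0
    · exact ⟨none, by simp, h⟩
    · push Not at h
      obtain ⟨i0, hi0⟩ := h
      obtain ⟨j, _, hj⟩ := exists_max_image (univ : Finset J) (fun i => θ i ((v i : ℕ) + 1))
        ⟨i0, mem_univ _⟩
      have hpos : 0 < θ j ((v j : ℕ) + 1) := lt_of_lt_of_le hi0 (hj i0 (mem_univ _))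
      refine ⟨some j, ?_, fun i => hj i (mem_univ _)⟩
      intro j' hj'
      rw [Option.mem_some_iff] at hj'
      subst hj'
      exact ⟨⟨_, hpos, (hv j j).trans_le (h01 _ _).2⟩, hpos⟩
  choose! o ho1 ho2 using hlev
  have key : ∀ v v' : J → Fin R, Cell θ v → Cell θ v' → o v = o v' → ∀ i, (v' i : ℕ) ≤ v i := by
    intro v v' hv hv' hoo
    have e1 : (o v).elim 0 (fun j => θ j ((v j : ℕ) + 1))
        = (o v').elim 0 (fun j => θ j ((v' j : ℕ) + 1)) := by
      rw [← hoo]
      rcases h : o v with _ | j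
      · rfl
      · simp only [Option.elim]
        have h1 := (ho1 v hv j (by rw [h]; rfl)).2
        have h2 := (ho1 v' hv' j (by rw [← hoo, h]; rfl)).2
        exact huniq j _ _ h1 ((hv j j).trans_le (h01 _ _).2) h2 ((hv' j j).trans_le (h01 _ _).2)
    refine hcmp v v' hv hv' _ (ho2 v hv) ?_
    rw [e1]
    rcases h : o v' with _ | j
    · left; rfl
    · right; exact ⟨j, rfl⟩
  have hmaps : ∀ v ∈ univ.filter (fun v : J → Fin R => Cell θ v),
      o v ∈ insertNone (univ.filter fun i : J => Frac θ i) := by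
    intro v hv
    rw [mem_filter] at hv
    rw [mem_insertNone]
    intro j hj
    exact mem_filter.2 ⟨mem_univ _, (ho1 v hv.2 j hj).1⟩
  have hinj : Set.InjOn o (univ.filter (fun v : J → Fin R => Cell θ v) : Finset (J → Fin R)) := by
    intro v hv v' hv' hoo
    rw [mem_coe, mem_filter] at hv hv'
    funext i
    exact Fin.ext (le_antisymm (key v' v hv'.2 hv.2 hoo.symm i) (key v v' hv.2 hv'.2 hoo i))
  have := card_le_card_of_injOn o hmaps hinj
  rwa [card_insertNone] at this

end Stair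

section Map

variable {Y : Type*} [TopologicalSpace Y] {J : Type} [Fintype J] {R : ℕ}

/-- unnormalised weight -/
noncomputable def wgt (θ : J → ℕ → ℝ) (v : J → Fin R) : ℝ :=
  ∏ i, ∏ j, max 0 (θ i (v i) - θ j ((v j : ℕ) + 1))

theorem wgt_nonneg (θ : J → ℕ → ℝ) (v : J → Fin R) : 0 ≤ wgt θ v :=
  prod_nonneg fun _ _ => prod_nonneg fun _ _ => le_max_left _ _

theorem wgt_ne_zero {θ : J → ℕ → ℝ} {v : J → Fin R} : wgt θ v ≠ 0 ↔ Cell θ v := by
  unfold wgt Cell
  rw [prod_ne_zero_iff]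
  constructor
  · intro h i j
    have h1 := h i (mem_univ _)
    rw [prod_ne_zero_iff] at h1
    have h2 := h1 j (mem_univ _)
    by_contra hcon
    push Not at hcon
    exact h2 (max_eq_left (by linarith))
  · intro h i _
    rw [prod_ne_zero_iff]
    intro j _
    have := h i j
    rw [max_eq_right (by linarith)]
    intro h0
    linarith

/-- **Rounding.** -/
theorem rounding (θ : J → ℕ → Y → ℝ) (hc : ∀ i u, Continuous (θ i u))
    (hanti : ∀ y i, Antitone fun u => θ i u y) (h01 : ∀ y i u, 0 ≤ θ i u y ∧ θ i u y ≤ 1)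
    (h0 : ∀ y i, θ i 0 y = 1) (hR : ∀ y i, θ i R y = 0)
    (huniq : ∀ y i u u', 0 < θ i u y → θ i u y < 1 → 0 < θ i u' y → θ i u' y < 1 →
      θ i u y = θ i u' y) {K : ℕ}
    (hK : ∀ y, {i : J | Frac (fun i u => θ i u y) i}.ncard ≤ K) :
    ∃ (V : Type) (_ : Fintype V) (f : Y → V → ℝ), Continuous f ∧ (∀ y, f y ∈ stdSimplex ℝ V) ∧
      (∀ y, {v | f y v ≠ 0}.ncard ≤ K + 1) ∧
      ∀ y y', f y = f y' → ∀ i, ∃ u < R, θ i (u + 1) y < θ i u y ∧ θ i (u + 1) y' < θ i u y' := by
  classical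
  refine ⟨J → Fin R, inferInstance, ?_⟩
  let w : Y → (J → Fin R) → ℝ := fun y v => wgt (fun i u => θ i u y) v
  have hwc : ∀ v, Continuous fun y => w y v := by
    intro v
    simp only [w, wgt]
    refine continuous_finsetProd _ fun i _ => continuous_finsetProd _ fun j _ => ?_
    exact continuous_const.max ((hc _ _).sub (hc _ _))
  have hpos : ∀ y, 0 < ∑ v, w y v := by
    intro y
    obtain ⟨v, hv⟩ := cell_exists (R := R) (θ := fun i u => θ i u y) (h0 y) (hR y)
    have h1 : 0 < w y v := lt_of_le_of_ne (wgt_nonneg _ _) (Ne.symm (wgt_ne_zero.2 hv))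
    exact lt_of_lt_of_le h1 (single_le_sum (f := fun v => w y v) (fun v _ => wgt_nonneg _ _)
      (mem_univ v))
  have hne : ∀ y v, w y v / ∑ v, w y v ≠ 0 ↔ Cell (fun i u => θ i u y) v := by
    intro y v
    rw [← wgt_ne_zero]
    constructor
    · intro h h1
      apply h
      simp only [w]
      rw [h1, zero_div]
    · intro h
      exact div_ne_zero h (hpos y).ne'
  refine ⟨fun y v => w y v / ∑ v, w y v, ?_, ?_, ?_, ?_⟩
  · refine continuous_pi fun v => ?_
    refine (hwc v).div (continuous_finsetSum _ fun v _ => hwc v) fun y => (hpos y).ne'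
  · intro y
    refine ⟨fun v => div_nonneg (wgt_nonneg _ _) (hpos y).le, ?_⟩
    rw [← sum_div]
    exact div_self (hpos y).ne'
  · intro y
    have h1 : {v | w y v / ∑ v, w y v ≠ 0}
        = ((univ.filter fun v : J → Fin R => Cell (fun i u => θ i u y) v : Finset (J → Fin R)) :
          Set (J → Fin R)) := by
      ext v
      simp only [Set.mem_ofPred_eq, coe_filter, mem_univ, true_and]
      exact hne y v
    rw [h1, Set.ncard_coe_finset]
    refine (cell_card (hanti y) (h01 y) (huniq y)).trans ?_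
    have h2 := hK y
    have h3 : {i : J | Frac (fun i u => θ i u y) i}
        = ((univ.filter fun i : J => Frac (fun i u => θ i u y) i : Finset J) : Set J) := by
      ext i
      simp
    rw [h3, Set.ncard_coe_finset] at h2
    omega
  · intro y y' hyy i
    obtain ⟨v, hv⟩ := cell_exists (R := R) (θ := fun i u => θ i u y) (h0 y) (hR y)
    have h1 := congrFun hyy v
    have h2 := (hne y v).2 hv
    simp only at h1
    rw [h1] at h2
    have h3 := (hne y' v).1 h2
    exact ⟨v i, (v i).2, hv i i, h3 i i⟩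

end Map

section Clamp

/-- the thresholds -/
noncomputable def thr (N q s : ℕ) (u : ℕ) (y : ℝ) : ℝ :=
  max 0 (min 1 (q * N * y - (N * ((u : ℝ) - q - 1) + s)))

theorem thr_cont (N q s u : ℕ) : Continuous (thr N q s u) := by
  unfold thr
  fun_prop

theorem thr_mem (N q s u : ℕ) (y : ℝ) : 0 ≤ thr N q s u y ∧ thr N q s u y ≤ 1 :=
  ⟨le_max_left _ _, max_le zero_le_one (min_le_left _ _)⟩

theorem thr_anti (N q s : ℕ) (y : ℝ) : Antitone fun u => thr N q s u y := by
  intro u u' h
  simp only [thr]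
  have h' : (u : ℝ) ≤ u' := by exact_mod_cast h
  have hN : (0 : ℝ) ≤ N := by positivity
  refine max_le_max le_rfl (min_le_min le_rfl ?_)
  nlinarith

theorem thr_pos {N q s u : ℕ} {y : ℝ} (h : 0 < thr N q s u y) :
    N * ((u : ℝ) - q - 1) + s < q * N * y := by
  unfold thr at h
  rcases lt_max_iff.1 h with h | h
  · exact absurd h (lt_irrefl _)
  · have := (lt_min_iff.1 h).2
    linarith

theorem thr_lt_one {N q s u : ℕ} {y : ℝ} (h : thr N q s u y < 1) :
    (q : ℝ) * N * y < N * ((u : ℝ) - q - 1) + s + 1 := by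
  unfold thr at h
  have h1 := (max_lt_iff.1 h).2
  rcases min_lt_iff.1 h1 with h | h
  · exact absurd h (lt_irrefl _)
  · linarith

theorem thr_zero {N q s : ℕ} (hs : s < N) {y : ℝ} (hy : -1 ≤ y) : thr N q s 0 y = 1 := by
  unfold thr
  have hs' : (s : ℝ) + 1 ≤ N := by exact_mod_cast hs
  have h1 : (0 : ℝ) ≤ q * N := by positivity
  have h2 : (1 : ℝ) ≤ q * N * y - (N * (((0 : ℕ) : ℝ) - q - 1) + s) := by
    push_cast
    nlinarith
  rw [min_eq_left h2, max_eq_right zero_le_one]

theorem thr_last {N q s : ℕ} {y : ℝ} (hy : y ≤ 1) : thr N q s (2 * q + 1) y = 0 := by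
  unfold thr
  have h1 : (0 : ℝ) ≤ q * N := by positivity
  have hs' : (0 : ℝ) ≤ s := by positivity
  have h2 : q * N * y - (N * (((2 * q + 1 : ℕ) : ℝ) - q - 1) + s) ≤ 0 := by
    push_cast
    nlinarith
  exact max_eq_left ((min_le_right _ _).trans h2)

theorem thr_uniq {N q s u u' : ℕ} (hN : 0 < N) {y : ℝ} (h1 : 0 < thr N q s u y)
    (h2 : thr N q s u y < 1) (h3 : 0 < thr N q s u' y) (h4 : thr N q s u' y < 1) : u = u' := by
  have e1 := thr_pos h1
  have e2 := thr_lt_one h2
  have e3 := thr_pos h3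
  have e4 := thr_lt_one h4
  have f1 : (N : ℤ) * u < N * u' + 1 := by
    have : (N : ℝ) * u < N * u' + 1 := by nlinarith
    exact_mod_cast this
  have f2 : (N : ℤ) * u' < N * u + 1 := by
    have : (N : ℝ) * u' < N * u + 1 := by nlinarith
    exact_mod_cast this
  have f3 : (N : ℤ) * u = N * u' := by omega
  have hN' : (N : ℤ) ≠ 0 := by exact_mod_cast hN.ne'
  exact_mod_cast mul_left_cancel₀ hN' f3

end Clamp

end Pool.Agent.Lib.MP_3f8c0b_an
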