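import Pool.Agent.Lib.MP_3f8c0b_an.MdimDefs
import Pool.Agent.Lib.MP_3f8c0b_an.Round

/-!
# Skeleta of simplices as geometric simplicial complexes
-/

set_option autoImplicit false

namespace Pool.Agent.Lib.MP_3f8c0b_an

open Finset

section Skel

variable {s : ℕ}

open Classical in
/-- the vertices of the standard simplex -/
noncomputable def vts (s : ℕ) : Finset (Fin s → ℝ) :=
  univ.image fun i : Fin s => (Pi.single i (1 : ℝ) : Fin s → ℝ)

theorem vts_indep : AffineIndependent ℝ ((↑) : ↥(vts s) → (Fin s → ℝ)) := by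
  classical
  have h1 : LinearIndependent ℝ (fun i : Fin s => (Pi.single i (1 : ℝ) : Fin s → ℝ)) := by
    have := (Pi.basisFun ℝ (Fin s)).linearIndependent
    convert this using 1
    funext i
    simp
  have h2 := (h1.affineIndependent ℝ).range
  refine AffineIndependent.mono h2 ?_
  intro x hx
  simp only [vts, coe_image, coe_univ, Set.image_univ] at hx
  exact hx

/-- the `n`-skeleton of the standard simplex -/
noncomputable def skel (s n : ℕ) : Geometry.SimplicialComplex ℝ (Fin s → ℝ) :=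
  Geometry.SimplicialComplex.ofErase {σ | σ ⊆ vts s ∧ σ.card ≤ n + 1}
    (fun _ hσ => AffineIndependent.mono vts_indep (Finset.coe_subset.2 hσ.1))
    (fun _ _ hst hs => ⟨hst.trans hs.1, (card_le_card hst).trans hs.2⟩)
    (fun _ hs _ ht => (AffineIndependent.convexHull_inter vts_indep hs.1 ht.1).ge)

theorem skel_faces (s n : ℕ) :
    (skel s n).faces = {σ | σ ⊆ vts s ∧ σ.card ≤ n + 1} \ {∅} := rfl

theorem skel_finite (s n : ℕ) : (skel s n).faces.Finite := by
  refine ((vts s).powerset.finite_toSet).subset ?_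
  intro σ hσ
  rw [skel_faces] at hσ
  rw [mem_coe, mem_powerset]
  exact hσ.1.1

theorem skel_card (s n : ℕ) : ∀ σ ∈ (skel s n).faces, σ.card ≤ n + 1 := by
  intro σ hσ
  rw [skel_faces] at hσ
  exact hσ.1.2

theorem mem_skel {n : ℕ} {x : Fin s → ℝ} (hx : x ∈ stdSimplex ℝ (Fin s))
    (hc : {i | x i ≠ 0}.ncard ≤ n + 1) : x ∈ (skel s n).space := by
  classical
  let S : Finset (Fin s) := univ.filter fun i => x i ≠ 0
  have hS : ({i | x i ≠ 0} : Set (Fin s)) = (S : Set (Fin s)) := by
    ext i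
    simp [S]
  rw [hS, Set.ncard_coe_finset] at hc
  have hsum : ∑ i ∈ S, x i = 1 := by
    rw [← hx.2]
    refine sum_subset (subset_univ _) fun i _ hi => ?_
    by_contra hne
    exact hi (mem_filter.2 ⟨mem_univ _, hne⟩)
  rw [Geometry.SimplicialComplex.mem_space_iff, skel_faces]
  refine ⟨S.image fun i => (Pi.single i (1 : ℝ) : Fin s → ℝ), ⟨⟨?_, ?_⟩, ?_⟩, ?_⟩
  · exact image_subset_image (subset_univ _)
  · exact card_image_le.trans hc
  · intro h0
    rw [Set.mem_singleton_iff, image_eq_empty] at h0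
    rw [h0] at hsum
    simp at hsum
  · have h1 : x = ∑ i ∈ S, x i • (Pi.single i (1 : ℝ) : Fin s → ℝ) := by
      funext j
      rw [Finset.sum_apply]
      simp only [Pi.smul_apply, Pi.single_apply, smul_eq_mul, mul_ite, mul_one, mul_zero]
      rw [sum_ite_eq S j]
      split_ifs with hj
      · rfl
      · by_contra hne
        exact hj (mem_filter.2 ⟨mem_univ _, hne⟩)
    rw [h1]
    refine (convex_convexHull ℝ _).sum_mem (fun i _ => hx.1 i) hsum fun i hi => ?_
    exact subset_convexHull ℝ _ (mem_coe.2 (mem_image_of_mem _ hi))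

end Skel

section Wid

variable {k : ℕ} {X : Type} [MetricSpace X] [AddAction (Fin k → ℤ) X]

/-- A map into a simplex with few nonzero coordinates bounds the width dimension. -/
theorem widimLE_of_map {A : AddSubgroup (Fin k → ℤ)} {F : Finset ((Fin k → ℤ) ⧸ A)} {ε ε' : ℝ}
    {n : ℕ} (hε : ε' < ε) (V : Type) [Fintype V] (f : X → V → ℝ) (hf : Continuous f)
    (hs : ∀ y, f y ∈ stdSimplex ℝ V) (hc : ∀ y, {v | f y v ≠ 0}.ncard ≤ n + 1)
    (hd : ∀ y y', f y = f y' → ∀ a : Fin k → ℤ, (a : (Fin k → ℤ) ⧸ A) ∈ F →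
      dist (a +ᵥ y) (a +ᵥ y') ≤ ε') : WidimLE X A F ε n := by
  classical
  let e : V ≃ Fin (Fintype.card V) := Fintype.equivFin V
  refine ⟨Fintype.card V, skel _ n, fun y i => f y.1 (e.symm i), skel_finite _ _, skel_card _ _,
    ?_, ?_, ε', hε, ?_⟩
  · exact continuous_pi fun i => (continuous_apply _).comp (hf.comp continuous_subtype_val)
  · intro y
    refine mem_skel ⟨fun i => (hs y.1).1 _, ?_⟩ ?_
    · rw [← (hs y.1).2]
      exact Fintype.sum_equiv e.symm _ _ fun _ => rfl
    · refine le_trans (le_of_eq ?_) (hc y.1)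
      have : {i | f y.1 (e.symm i) ≠ 0} = e '' {v | f y.1 v ≠ 0} := by
        ext i
        simp only [Set.mem_ofPred_eq, Set.mem_image]
        constructor
        · intro h
          exact ⟨e.symm i, h, by simp⟩
        · rintro ⟨v, hv, rfl⟩
          simpa using hv
      rw [this, Set.ncard_image_of_injective _ e.injective]
  · intro y y' hyy
    refine hd _ _ ?_
    funext v
    have := congrFun hyy (e v)
    simpa using this

theorem widimLE_of_isEmpty {A : AddSubgroup (Fin k → ℤ)} (h : IsEmpty (fixedPts X A))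
    {F : Finset ((Fin k → ℤ) ⧸ A)} {ε : ℝ} (hε : 0 < ε) : WidimLE X A F ε 0 := by
  refine ⟨0, skel 0 0, fun y => (h.false y).elim, skel_finite _ _, skel_card _ _, ?_, ?_, 0, hε, ?_⟩
  · exact continuous_of_const fun y => (h.false y).elim
  · exact fun y => (h.false y).elim
  · exact fun y => (h.false y).elim

theorem widim_le {A : AddSubgroup (Fin k → ℤ)} {F : Finset ((Fin k → ℤ) ⧸ A)} {ε : ℝ} {n : ℕ}
    (h : WidimLE X A F ε n) : widim X A F ε ≤ n := by
  unfold widim
  exact iInf_le (fun n : {n : ℕ // WidimLE X A F ε n} => ((n.1 : ℕ) : ENNReal)) ⟨n, h⟩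

open Filter in
/-- Criterion for mean dimension zero. -/
theorem mdim_eq_zero {A : AddSubgroup (Fin k → ℤ)} {F : ℕ → Finset ((Fin k → ℤ) ⧸ A)}
    (hne : ∀ N, (F N).Nonempty)
    (h : ∀ ε > 0, ∀ η > 0, ∀ᶠ N in atTop, ∃ n : ℕ, WidimLE X A (F N) ε n ∧
      (n : ℝ) ≤ η * (F N).card) : mdim X A F = 0 := by
  unfold mdim
  rw [ENNReal.iSup_eq_zero]
  rintro ⟨ε, hε⟩
  refine le_antisymm ?_ zero_le
  refine ENNReal.le_of_forall_pos_le_add fun η hη _ => ?_
  rw [zero_add]
  refine limsup_le_of_le (by isBoundedDefault) ?_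
  filter_upwards [h ε hε η (by exact_mod_cast hη)] with N hN
  obtain ⟨n, h1, h2⟩ := hN
  have h3 : ((F N).card : ENNReal) ≠ 0 := by
    have := (hne N).card_pos
    exact_mod_cast this.ne'
  refine ENNReal.div_le_of_le_mul ?_
  refine (widim_le h1).trans ?_
  have h4 : ((n : ℝ)) ≤ ((η * ((F N).card : NNReal) : NNReal) : ℝ) := by
    push_cast
    exact h2
  have h5 : (n : NNReal) ≤ η * ((F N).card : NNReal) := by
    rw [← NNReal.coe_le_coe]
    push_cast
    exact h2
  exact_mod_cast h5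

end Wid

end Pool.Agent.Lib.MP_3f8c0b_an
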