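import Pool.Agent.Lib.MP_3f8c0b_an.Sys
import Pool.Agent.Lib.MP_3f8c0b_an.Skel

/-!
# Blocks and mean dimension
-/

set_option autoImplicit false

namespace Pool.Agent.Lib.MP_3f8c0b_an

open Finset

section Block

variable {G : Type} [AddCommGroup G]

open Classical in
/-- number of the blocks of length `L` met by the image of a finite set -/
theorem block_count (π : G →+ ℤ) (g1 : G) (hg1 : π g1 = 1) (F : Finset G) {L : ℕ} (hL : 0 < L) :
    (F.image fun f => π f / (L : ℤ)).card * L
      ≤ F.card + L * ∑ i ∈ Finset.Ioo (-(L : ℤ)) L, (F.filter fun f => i • g1 + f ∉ F).card := by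
  have hL' : (0 : ℤ) < L := by exact_mod_cast hL
  let bl : G → ℤ := fun f => π f / (L : ℤ)
  let B := F.image bl
  let E : Finset G := (Finset.Ioo (-(L : ℤ)) L).biUnion fun i => F.filter fun f => i • g1 + f ∉ F
  have hE : E.card ≤ ∑ i ∈ Finset.Ioo (-(L : ℤ)) L, (F.filter fun f => i • g1 + f ∉ F).card :=
    card_biUnion_le
  let B2 := E.image bl
  let B1 := B \ B2
  have hB2 : B2.card ≤ E.card := card_image_le
  have hB : B.card ≤ B1.card + B2.card := by
    have : B ⊆ B1 ∪ B2 := by
      intro c hc
      by_cases h : c ∈ B2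
      · exact mem_union_right _ h
      · exact mem_union_left _ (mem_sdiff.2 ⟨hc, h⟩)
    exact (card_le_card this).trans (card_union_le _ _)
  -- full blocks
  have hfull : ∀ c ∈ B1, L ≤ (F.filter fun f => bl f = c).card := by
    intro c hc
    obtain ⟨hc1, hc2⟩ := mem_sdiff.1 hc
    obtain ⟨f0, hf0, hfc⟩ := mem_image.1 hc1
    have hin : ∀ i : ℤ, -(L : ℤ) < i → i < L → i • g1 + f0 ∈ F := by
      intro i hi1 hi2
      by_contra hcon
      apply hc2
      refine mem_image.2 ⟨f0, mem_biUnion.2 ⟨i, mem_Ioo.2 ⟨hi1, hi2⟩, ?_⟩, hfc⟩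
      exact mem_filter.2 ⟨hf0, hcon⟩
    have hr1 : c * L ≤ π f0 := by
      rw [← hfc]
      exact Int.ediv_mul_le _ hL'.ne'
    have hr2 : π f0 < c * L + L := by
      have := Int.lt_ediv_add_one_mul_self (π f0) hL'
      rw [← hfc]
      simp only [bl]
      linarith
    have hinj : Function.Injective fun t : Fin L => (c * L + (t : ℕ) - π f0 : ℤ) • g1 + f0 := by
      intro t t' htt
      have h1 := congrArg π htt
      simp only [map_add, map_zsmul, hg1, smul_eq_mul, mul_one] at h1
      apply Fin.ext
      omega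
    have hcard : (univ.image fun t : Fin L => (c * L + (t : ℕ) - π f0 : ℤ) • g1 + f0).card = L := by
      rw [card_image_of_injective _ hinj, card_univ, Fintype.card_fin]
    rw [← hcard]
    apply card_le_card
    intro f hf
    obtain ⟨t, _, rfl⟩ := mem_image.1 hf
    have ht := t.2
    refine mem_filter.2 ⟨hin _ (by omega) (by omega), ?_⟩
    simp only [bl, map_add, map_zsmul, hg1, smul_eq_mul, mul_one]
    rw [sub_add_cancel]
    rw [Int.ediv_eq_iff_of_pos hL']
    constructor <;> nlinarith
  have hB1 : B1.card * L ≤ F.card := by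
    have h1 : ∑ c ∈ B1, L ≤ ∑ c ∈ B1, (F.filter fun f => bl f = c).card := sum_le_sum hfull
    rw [sum_const, smul_eq_mul] at h1
    refine h1.trans ?_
    rw [← card_biUnion]
    · exact card_le_card (biUnion_subset.2 fun c _ => filter_subset _ _)
    · intro c _ c' _ hcc
      rw [Function.onFun, disjoint_left]
      intro f hf hf'
      exact hcc ((mem_filter.1 hf).2.symm.trans (mem_filter.1 hf').2)
  calc B.card * L ≤ (B1.card + B2.card) * L := Nat.mul_le_mul_right _ hB
    _ = B1.card * L + L * B2.card := by ring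
    _ ≤ _ := Nat.add_le_add hB1 (Nat.mul_le_mul_left _ (hB2.trans hE))

open Filter

open Classical in
theorem folner_count {F : ℕ → Finset G} (hF : IsFolner F) (g : G) :
    Tendsto (fun N => (((F N).filter fun f => g + f ∉ F N).card : ℝ) / (F N).card) atTop
      (nhds 0) := by
  refine squeeze_zero (fun N => by positivity) (fun N => ?_) (hF.2 g)
  gcongr
  have h1 : (((F N).filter fun f => g + f ∉ F N).image fun f => g + f).card
      = ((F N).filter fun f => g + f ∉ F N).card :=
    card_image_of_injective _ (add_right_injective g)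
  rw [← h1, ← Set.ncard_coe_finset]
  apply Set.ncard_le_ncard
  · intro f hf
    rw [mem_coe, mem_image] at hf
    obtain ⟨f', hf', rfl⟩ := hf
    rw [mem_filter] at hf'
    left
    exact ⟨⟨f', hf'.1, rfl⟩, hf'.2⟩
  · exact (((F N).finite_toSet.image _).union (F N).finite_toSet).subset symmDiff_le_sup

open Classical in
theorem block_limit (π : G →+ ℤ) (g1 : G) (hg1 : π g1 = 1) {F : ℕ → Finset G} (hF : IsFolner F)
    {L : ℕ} (hL : 0 < L) {η : ℝ} (hη : 0 < η) :
    ∀ᶠ N in atTop, (((F N).image fun f => π f / (L : ℤ)).card : ℝ)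
      ≤ (1 / L + η) * (F N).card := by
  have h1 : Tendsto (fun N => ∑ i ∈ Finset.Ioo (-(L : ℤ)) L,
      (((F N).filter fun f => i • g1 + f ∉ F N).card : ℝ) / (F N).card) atTop (nhds 0) := by
    have := tendsto_finsetSum (Finset.Ioo (-(L : ℤ)) L) fun i _ => folner_count hF (i • g1)
    simpa using this
  filter_upwards [h1.eventually_lt_const hη] with N hN
  have hc : (0 : ℝ) < (F N).card := by exact_mod_cast (hF.1 N).card_pos
  have hL' : (0 : ℝ) < L := by exact_mod_cast hL
  have h2 := block_count π g1 hg1 (F N) hL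
  have h3 : (((F N).image fun f => π f / (L : ℤ)).card : ℝ) * L
      ≤ (F N).card + L * ∑ i ∈ Finset.Ioo (-(L : ℤ)) L,
        (((F N).filter fun f => i • g1 + f ∉ F N).card : ℝ) := by exact_mod_cast h2
  rw [← sum_div, div_lt_iff₀ hc] at hN
  have h4 : (((F N).image fun f => π f / (L : ℤ)).card : ℝ) * L
      ≤ (1 / L + η) * (F N).card * L := by
    calc _ ≤ (F N).card + L * (η * (F N).card) := by
          refine h3.trans ?_
          gcongr
      _ = _ := by field_simp
  exact le_of_mul_le_mul_right h4 hL'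

end Block

end Pool.Agent.Lib.MP_3f8c0b_an
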