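import Pool.Agent.Lib.MP_3f8c0b_an.Alg

/-!
# MP_3f8c0b_an: small chains in the join of `n` copies of `ZMod p`
-/

set_option autoImplicit false

open Finset

namespace Pool.Agent.Lib.MP_3f8c0b_an

section general

variable {P : Type*} {p : ℕ}

/-- chains of lists of points -/
abbrev Ch (P : Type*) (p : ℕ) := List P →₀ ZMod p

/-- linear extension -/
noncomputable abbrev lc {M : Type*} [AddCommGroup M] [Module (ZMod p) M] (g : List P → M) :
    Ch P p →ₗ[ZMod p] M := Finsupp.linearCombination (ZMod p) g

theorem lc_single {M : Type*} [AddCommGroup M] [Module (ZMod p) M] (g : List P → M)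
    (L : List P) : lc g (Finsupp.single L (1 : ZMod p)) = g L := by
  simp [lc]

theorem lc_mem {M : Type*} [AddCommGroup M] [Module (ZMod p) M] {g : List P → M}
    {S : Set (List P)} {Q : Submodule (ZMod p) M} (h : ∀ L ∈ S, g L ∈ Q) {c : Ch P p}
    (hc : c ∈ Finsupp.supported (ZMod p) (ZMod p) S) : lc g c ∈ Q := by
  rw [lc, Finsupp.linearCombination_apply, Finsupp.sum]
  apply Submodule.sum_mem
  intro L hL
  apply Q.smul_mem
  exact h L ((Finsupp.mem_supported _ _).1 hc hL)

theorem lc_congr {M : Type*} [AddCommGroup M] [Module (ZMod p) M] {g g' : List P → M}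
    {S : Set (List P)} (h : ∀ L ∈ S, g L = g' L) {c : Ch P p}
    (hc : c ∈ Finsupp.supported (ZMod p) (ZMod p) S) : lc g c = lc g' c := by
  rw [lc, lc, Finsupp.linearCombination_apply, Finsupp.linearCombination_apply, Finsupp.sum,
    Finsupp.sum]
  apply sum_congr rfl
  intro L hL
  rw [h L ((Finsupp.mem_supported _ _).1 hc hL)]

theorem lc_comp {M M' : Type*} [AddCommGroup M] [Module (ZMod p) M] [AddCommGroup M']
    [Module (ZMod p) M'] (g : List P → M) (f : M →ₗ[ZMod p] M') (c : Ch P p) :
    f (lc g c) = lc (fun L => f (g L)) c := by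
  rw [lc, lc, Finsupp.linearCombination_apply, Finsupp.linearCombination_apply, Finsupp.sum,
    Finsupp.sum, map_sum]
  simp

/-- two linear maps which agree on lists are equal -/
theorem lin_ext {M : Type*} [AddCommGroup M] [Module (ZMod p) M] {f g : Ch P p →ₗ[ZMod p] M}
    (h : ∀ L, f (Finsupp.single L 1) = g (Finsupp.single L 1)) (c : Ch P p) : f c = g c := by
  have : f = g := by
    apply Finsupp.lhom_ext
    intro L b
    have hb : (Finsupp.single L b : Ch P p) = b • Finsupp.single L 1 := by simp
    rw [hb, map_smul, map_smul, h]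
  rw [this]

/-- put a point in front -/
noncomputable def cons (w : P) : Ch P p →ₗ[ZMod p] Ch P p :=
  lc (fun L => Finsupp.single (w :: L) 1)

theorem cons_single (w : P) (L : List P) :
    cons w (Finsupp.single L (1 : ZMod p)) = Finsupp.single (w :: L) 1 := lc_single _ _

/-- image under a map of points -/
noncomputable def mp (φ : P → P) : Ch P p →ₗ[ZMod p] Ch P p :=
  lc (fun L => Finsupp.single (L.map φ) 1)

theorem mp_single (φ : P → P) (L : List P) :
    mp φ (Finsupp.single L (1 : ZMod p)) = Finsupp.single (L.map φ) 1 := lc_single _ _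

/-- boundary of a list -/
noncomputable def bdL : List P → Ch P p
  | [] => 0
  | w :: L => Finsupp.single L 1 - cons w (bdL L)

/-- boundary -/
noncomputable def bd : Ch P p →ₗ[ZMod p] Ch P p := lc bdL

theorem bd_single (L : List P) : bd (Finsupp.single L (1 : ZMod p)) = bdL L := lc_single _ _

theorem bd_cons (w : P) (c : Ch P p) : bd (cons w c) = c - cons w (bd c) := by
  have := lin_ext (f := bd ∘ₗ cons w) (g := LinearMap.id - cons w ∘ₗ bd) (fun L => by
    simp only [LinearMap.comp_apply, LinearMap.sub_apply, LinearMap.id_apply]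
    rw [cons_single, bd_single, bd_single]
    rfl) c
  simpa using this

theorem mp_cons (φ : P → P) (w : P) (c : Ch P p) : mp φ (cons w c) = cons (φ w) (mp φ c) := by
  have := lin_ext (f := mp φ ∘ₗ cons w) (g := cons (φ w) ∘ₗ mp φ) (fun L => by
    simp only [LinearMap.comp_apply]
    rw [cons_single, mp_single, mp_single, cons_single]
    rfl) c
  simpa using this

theorem mp_mp (φ ψ : P → P) (c : Ch P p) : mp φ (mp ψ c) = mp (φ ∘ ψ) c := by
  have := lin_ext (f := mp φ ∘ₗ mp ψ) (g := mp (φ ∘ ψ)) (fun L => by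
    simp only [LinearMap.comp_apply]
    rw [mp_single, mp_single, mp_single, List.map_map]) c
  simpa using this

theorem mp_id (c : Ch P p) : mp (fun x => x) c = c := by
  have := lin_ext (f := mp (fun x : P => x)) (g := LinearMap.id) (fun L => by
    rw [mp_single]
    simp) c
  simpa using this

theorem bdL_map (φ : P → P) (L : List P) :
    (bdL (L.map φ) : Ch P p) = mp φ (bdL L) := by
  induction L with
  | nil => simp [bdL]
  | cons w L ih =>
    simp only [List.map_cons, bdL, ih, map_sub, mp_cons, mp_single]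

theorem bd_mp (φ : P → P) (c : Ch P p) : bd (mp φ c) = mp φ (bd c) := by
  have := lin_ext (f := bd ∘ₗ mp φ) (g := mp φ ∘ₗ bd) (fun L => by
    simp only [LinearMap.comp_apply]
    rw [mp_single, bd_single, bd_single, bdL_map]) c
  simpa using this

/-- the prism on a list -/
noncomputable def prL (φ ψ : P → P) : List P → Ch P p
  | [] => 0
  | w :: L => Finsupp.single (φ w :: ψ w :: L.map ψ) 1 - cons (φ w) (prL φ ψ L)

/-- the prism -/
noncomputable def pr (φ ψ : P → P) : Ch P p →ₗ[ZMod p] Ch P p := lc (prL φ ψ)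

theorem pr_single (φ ψ : P → P) (L : List P) :
    pr φ ψ (Finsupp.single L (1 : ZMod p)) = prL φ ψ L := lc_single _ _

theorem pr_cons (φ ψ : P → P) (w : P) (c : Ch P p) :
    pr φ ψ (cons w c) = cons (φ w) (cons (ψ w) (mp ψ c)) - cons (φ w) (pr φ ψ c) := by
  have := lin_ext (f := pr φ ψ ∘ₗ cons w)
    (g := cons (φ w) ∘ₗ cons (ψ w) ∘ₗ mp ψ - cons (φ w) ∘ₗ pr φ ψ) (fun L => by
    simp only [LinearMap.comp_apply, LinearMap.sub_apply]
    rw [cons_single, pr_single, pr_single, mp_single, cons_single, cons_single]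
    rfl) c
  simpa using this

theorem homotopyL (φ ψ : P → P) (L : List P) :
    bd (prL φ ψ L : Ch P p) + pr φ ψ (bdL L) =
      Finsupp.single (L.map ψ) 1 - Finsupp.single (L.map φ) 1 := by
  induction L with
  | nil => simp [prL, bdL]
  | cons w L ih =>
    have e1 : (prL φ ψ (w :: L) : Ch P p) =
        cons (φ w) (cons (ψ w) (Finsupp.single (L.map ψ) 1)) - cons (φ w) (prL φ ψ L) := by
      rw [cons_single, cons_single]
      rfl
    have e2 : (bdL (w :: L) : Ch P p) = Finsupp.single L 1 - cons w (bdL L) := rfl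
    rw [e1, e2, map_sub, map_sub, bd_cons, bd_cons, bd_cons, pr_cons, pr_single, bd_single,
      bdL_map, List.map_cons, List.map_cons, ← cons_single, ← cons_single]
    have e3 := congrArg (cons (φ w)) ih
    simp only [map_add, map_sub] at e3 ⊢
    rw [← sub_eq_zero] at e3 ⊢
    rw [← e3]
    abel

theorem homotopy (φ ψ : P → P) (c : Ch P p) :
    bd (pr φ ψ c) + pr φ ψ (bd c) = mp ψ c - mp φ c := by
  have := lin_ext (f := bd ∘ₗ pr φ ψ + pr φ ψ ∘ₗ bd) (g := mp ψ - mp φ) (fun L => by
    simp only [LinearMap.comp_apply, LinearMap.add_apply, LinearMap.sub_apply]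
    rw [pr_single, bd_single, mp_single, mp_single, homotopyL]) c
  simpa using this

/-- the subdivided cone -/
noncomputable def cone (v : P) (φ : ℕ → P → P) (R : ℕ) (c : Ch P p) : Ch P p :=
  cons v (mp (φ R) c) - ∑ r ∈ range R, pr (φ r) (φ (r + 1)) c

theorem bd_cone (v : P) (φ : ℕ → P → P) (h0 : φ 0 = fun x => x) (R : ℕ) (c : Ch P p)
    (hc : bd c = 0) : bd (cone v φ R c) = c := by
  unfold cone
  rw [map_sub, bd_cons, bd_mp, hc, map_zero, map_zero, sub_zero, map_sum]
  have h1 : ∀ r ∈ range R, bd (pr (φ r) (φ (r + 1)) c) = mp (φ (r + 1)) c - mp (φ r) c := by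
    intro r _
    have := homotopy (φ r) (φ (r + 1)) c
    rw [hc, map_zero, add_zero] at this
    exact this
  rw [sum_congr rfl h1, sum_range_sub (fun r => mp (φ r) c), h0, mp_id]
  abel

theorem prL_supp (φ ψ : P → P) (L : List P) :
    (prL φ ψ L : Ch P p) ∈ Finsupp.supported (ZMod p) (ZMod p)
      {L' | L'.length = L.length + 1 ∧ ∀ u ∈ L', ∃ w ∈ L, u = φ w ∨ u = ψ w} := by
  induction L with
  | nil => exact Submodule.zero_mem _
  | cons w L ih =>
    unfold prL
    apply Submodule.sub_mem
    · apply Finsupp.single_mem_supported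
      refine ⟨by simp, ?_⟩
      intro u hu
      simp only [List.mem_cons, List.mem_map] at hu
      rcases hu with rfl | rfl | ⟨a, ha, rfl⟩
      · exact ⟨w, by simp, Or.inl rfl⟩
      · exact ⟨w, by simp, Or.inr rfl⟩
      · exact ⟨a, by simp [ha], Or.inr rfl⟩
    · apply lc_mem _ ih
      rintro L' ⟨h1, h2⟩
      apply Finsupp.single_mem_supported
      refine ⟨by simp [h1], ?_⟩
      intro u hu
      simp only [List.mem_cons] at hu
      rcases hu with rfl | hu
      · exact ⟨w, by simp, Or.inl rfl⟩
      · obtain ⟨a, ha, h⟩ := h2 u hu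
        exact ⟨a, by simp [ha], h⟩

end general

end Pool.Agent.Lib.MP_3f8c0b_an
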