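import Pool.Agent.Lib.MP_3f8c0b_an.Chain

/-!
# MP_3f8c0b_an: there is no small equivariant labelling of the join of `n` copies of `ZMod p`
with `m < n` labels
-/

set_option autoImplicit false

open Finset

namespace Pool.Agent.Lib.MP_3f8c0b_an

variable {n p m : ℕ}

/-- points of the ambient space of the join -/
abbrev Pt (n p : ℕ) := Fin n → ZMod p → ℝ

/-- the join of `n` copies of `ZMod p`, using only the layers up to `k` -/
def XE (n p : ℕ) [NeZero p] (k : ℕ) : Set (Pt n p) :=
  {x | (∀ i g, 0 ≤ x i g) ∧ ∑ i, ∑ g, x i g = 1 ∧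
    (∀ i g g', x i g ≠ 0 → x i g' ≠ 0 → g = g') ∧ ∀ i : Fin n, k < (i : ℕ) → ∀ g, x i g = 0}

/-- the generator of `ZMod p` acts on the join -/
def Ts (x : Pt n p) : Pt n p := fun i g => x i (g + 1)

theorem Ts_mem [NeZero p] {k : ℕ} {x : Pt n p} (hx : x ∈ XE n p k) : Ts x ∈ XE n p k := by
  obtain ⟨h1, h2, h3, h4⟩ := hx
  refine ⟨fun i g => h1 i _, ?_, ?_, fun i hi g => h4 i hi _⟩
  · rw [← h2]
    apply sum_congr rfl
    intro i _
    exact Fintype.sum_equiv (Equiv.addRight (1 : ZMod p)) _ _ (fun g => rfl)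
  · intro i g g' hg hg'
    have := h3 i _ _ hg hg'
    exact add_right_cancel this

theorem Ts_iter_mem [NeZero p] {k : ℕ} {x : Pt n p} (hx : x ∈ XE n p k) (j : ℕ) :
    Ts^[j] x ∈ XE n p k := by
  induction j with
  | zero => exact hx
  | succ j ih =>
    rw [Function.iterate_succ_apply']
    exact Ts_mem ih

theorem dist_Ts_le [NeZero p] (x y : Pt n p) : dist (Ts x) (Ts y) ≤ dist x y := by
  rw [dist_pi_le_iff dist_nonneg]
  intro i
  rw [dist_pi_le_iff dist_nonneg]
  intro g
  exact (dist_le_pi_dist (x i) (y i) (g + 1)).trans (dist_le_pi_dist x y i)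

theorem dist_Ts_iter_le [NeZero p] (x y : Pt n p) (j : ℕ) :
    dist (Ts^[j] x) (Ts^[j] y) ≤ dist x y := by
  induction j with
  | zero => exact le_rfl
  | succ j ih =>
    rw [Function.iterate_succ_apply', Function.iterate_succ_apply']
    exact (dist_Ts_le _ _).trans ih

/-- the vertex `(k, 0)` -/
noncomputable def vx (n p k : ℕ) : Pt n p := fun i g => if (i : ℕ) = k ∧ g = 0 then 1 else 0

theorem vx_mem [NeZero p] {k : ℕ} (hk : k < n) : vx n p k ∈ XE n p k := by
  refine ⟨?_, ?_, ?_, ?_⟩
  · intro i g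
    unfold vx
    split_ifs <;> norm_num
  · rw [sum_eq_single ⟨k, hk⟩, sum_eq_single 0]
    · simp [vx]
    · intro g _ hg
      simp [vx, hg]
    · simp
    · intro i _ hi
      apply sum_eq_zero
      intro g _
      have : (i : ℕ) ≠ k := fun h => hi (Fin.ext h)
      simp [vx, this]
    · simp
  · intro i g g' hg hg'
    unfold vx at hg hg'
    split_ifs at hg with h
    · split_ifs at hg' with h'
      · rw [h.2, h'.2]
      · exact absurd rfl hg'
    · exact absurd rfl hg
  · intro i hi g
    unfold vx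
    rw [if_neg]
    rintro ⟨h, _⟩
    omega

/-- the homotopy to the vertex `(k, 0)`, in `R` steps -/
noncomputable def ph (n p k R : ℕ) (r : ℕ) (x : Pt n p) : Pt n p :=
  fun i g => (1 - (r : ℝ) / R) * x i g + (r : ℝ) / R * vx n p k i g

theorem ph_zero (k R : ℕ) : ph n p k R 0 = fun x => x := by
  ext x i g
  simp [ph]

theorem ph_mem [NeZero p] {k R r : ℕ} (hk : k + 1 < n) (hr : r ≤ R) (hR : 0 < R) {x : Pt n p}
    (hx : x ∈ XE n p k) : ph n p (k + 1) R r x ∈ XE n p (k + 1) := by
  obtain ⟨h1, h2, h3, h4⟩ := hx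
  obtain ⟨v1, v2, v3, v4⟩ := vx_mem (n := n) (p := p) hk
  have hR' : (0 : ℝ) < R := by exact_mod_cast hR
  have t0 : 0 ≤ (r : ℝ) / R := by positivity
  have t1 : (r : ℝ) / R ≤ 1 := by
    rw [div_le_one hR']
    exact_mod_cast hr
  refine ⟨?_, ?_, ?_, ?_⟩
  · intro i g
    have := h1 i g
    have := v1 i g
    unfold ph
    have h : 0 ≤ 1 - (r : ℝ) / R := by linarith
    positivity
  · unfold ph
    simp only [sum_add_distrib, ← mul_sum]
    rw [h2, v2]
    ring
  · intro i g g' hg hg'
    by_cases hi : (i : ℕ) = k + 1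
    · have e : ∀ g, x i g = 0 := h4 i (by omega)
      unfold ph at hg hg'
      rw [e, mul_zero, zero_add] at hg hg'
      exact v3 i g g' (right_ne_zero_of_mul hg) (right_ne_zero_of_mul hg')
    · have e : ∀ g, vx n p (k + 1) i g = 0 := by
        intro g
        simp [vx, hi]
      unfold ph at hg hg'
      rw [e, mul_zero, add_zero] at hg hg'
      exact h3 i g g' (right_ne_zero_of_mul hg) (right_ne_zero_of_mul hg')
  · intro i hi g
    unfold ph
    rw [h4 i (by omega) g, v4 i hi g]
    ring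

theorem XE_le_one [NeZero p] {k : ℕ} {x : Pt n p} (hx : x ∈ XE n p k) (i : Fin n) (g : ZMod p) :
    x i g ≤ 1 := by
  obtain ⟨h1, h2, -, -⟩ := hx
  rw [← h2]
  calc x i g ≤ ∑ g, x i g := single_le_sum (f := fun g => x i g) (fun g _ => h1 i g) (mem_univ g)
    _ ≤ ∑ i, ∑ g, x i g :=
      single_le_sum (f := fun i => ∑ g, x i g) (fun i _ => sum_nonneg (fun g _ => h1 i g))
        (mem_univ i)

theorem ph_dist [NeZero p] {k R r r' : ℕ} (hk : k + 1 < n) (hr' : r' ≤ R) (hR : 0 < R)
    {x y : Pt n p} (hx : x ∈ XE n p k) (hrr : |(r : ℝ) - r'| ≤ 1) :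
    dist (ph n p (k + 1) R r x) (ph n p (k + 1) R r' y) ≤ dist x y + 1 / R := by
  have hv := vx_mem (n := n) (p := p) hk
  have hR' : (0 : ℝ) < R := by exact_mod_cast hR
  have t0 : 0 ≤ (r' : ℝ) / R := by positivity
  have t1 : (r' : ℝ) / R ≤ 1 := by
    rw [div_le_one hR']
    exact_mod_cast hr'
  have hpos : 0 ≤ dist x y + 1 / R := by positivity
  rw [dist_pi_le_iff hpos]
  intro i
  rw [dist_pi_le_iff hpos]
  intro g
  have hd : |x i g - y i g| ≤ dist x y := by
    rw [← Real.dist_eq]
    exact (dist_le_pi_dist (x i) (y i) g).trans (dist_le_pi_dist x y i)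
  have b1 := XE_le_one hx i g
  have b2 := XE_le_one hv i g
  have b3 := hx.1 i g
  have b4 := hv.1 i g
  rw [Real.dist_eq]
  unfold ph
  have e : (1 - (r : ℝ) / R) * x i g + (r : ℝ) / R * vx n p (k + 1) i g -
      ((1 - (r' : ℝ) / R) * y i g + (r' : ℝ) / R * vx n p (k + 1) i g) =
      (1 - (r' : ℝ) / R) * (x i g - y i g) +
        ((r : ℝ) - r') / R * (vx n p (k + 1) i g - x i g) := by
    ring
  rw [e]
  refine (abs_add_le _ _).trans ?_
  rw [abs_mul, abs_mul, abs_div, abs_of_pos hR', abs_of_nonneg (by linarith : 0 ≤ 1 - (r' : ℝ) / R)]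
  have h5 : |vx n p (k + 1) i g - x i g| ≤ 1 := by
    rw [abs_le]
    constructor <;> linarith
  have h6 : (1 - (r' : ℝ) / R) * |x i g - y i g| ≤ 1 * dist x y := by
    apply mul_le_mul _ hd (abs_nonneg _) zero_le_one
    linarith
  have h7 : |(r : ℝ) - r'| / R * |vx n p (k + 1) i g - x i g| ≤ 1 / R * 1 := by
    apply mul_le_mul _ h5 (abs_nonneg _) (by positivity)
    gcongr
  linarith

theorem ph_dist_vx [NeZero p] {k R : ℕ} (hk : k + 1 < n) {x : Pt n p}
    (hx : x ∈ XE n p k) :
    dist (vx n p (k + 1)) (ph n p (k + 1) (R + 1) R x) ≤ 1 / ((R + 1 : ℕ) : ℝ) := by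
  have hv := vx_mem (n := n) (p := p) hk
  have hR' : (0 : ℝ) < ((R + 1 : ℕ) : ℝ) := by positivity
  have hpos : (0 : ℝ) ≤ 1 / ((R + 1 : ℕ) : ℝ) := by positivity
  rw [dist_pi_le_iff hpos]
  intro i
  rw [dist_pi_le_iff hpos]
  intro g
  have b1 := XE_le_one hx i g
  have b2 := XE_le_one hv i g
  have b3 := hx.1 i g
  have b4 := hv.1 i g
  rw [Real.dist_eq]
  unfold ph
  have e : vx n p (k + 1) i g - ((1 - (R : ℝ) / ((R + 1 : ℕ) : ℝ)) * x i g +
      (R : ℝ) / ((R + 1 : ℕ) : ℝ) * vx n p (k + 1) i g) =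
      1 / ((R + 1 : ℕ) : ℝ) * (vx n p (k + 1) i g - x i g) := by
    push_cast
    field_simp
    ring
  rw [e, abs_mul, abs_of_nonneg hpos]
  have h5 : |vx n p (k + 1) i g - x i g| ≤ 1 := by
    rw [abs_le]
    constructor <;> linarith
  calc 1 / ((R + 1 : ℕ) : ℝ) * |vx n p (k + 1) i g - x i g| ≤ 1 / ((R + 1 : ℕ) : ℝ) * 1 := by
        gcongr
    _ = 1 / ((R + 1 : ℕ) : ℝ) := by ring

/-- small lists -/
def Sm (n p : ℕ) [NeZero p] (k : ℕ) (κ : ℝ) : Set (List (Pt n p)) :=
  {L | L.length = k + 1 ∧ (∀ w ∈ L, w ∈ XE n p k) ∧ ∀ w ∈ L, ∀ w' ∈ L, dist w w' ≤ κ}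

/-- the cycle of which `α (k + 1)` is the cone -/
noncomputable def gam (n p : ℕ) (k : ℕ) (c : Ch (Pt n p) p) : Ch (Pt n p) p :=
  if Even k then mp Ts c - c else ∑ j ∈ range p, mp (Ts^[j]) c

/-- the fundamental chains -/
noncomputable def al (n p R : ℕ) : ℕ → Ch (Pt n p) p
  | 0 => Finsupp.single [vx n p 0] 1
  | k + 1 => cone (vx n p (k + 1)) (ph n p (k + 1) (R + 1)) R (gam n p k (al n p R k))

theorem Ts_iter_p (x : Pt n p) : Ts^[p] x = x := by
  have : ∀ j : ℕ, Ts^[j] x = fun i g => x i (g + j) := by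
    intro j
    induction j with
    | zero => simp
    | succ j ih =>
      rw [Function.iterate_succ_apply', ih]
      unfold Ts
      ext i g
      push_cast
      ring_nf
  rw [this]
  simp

theorem mp_Ts_sum (c : Ch (Pt n p) p) :
    mp Ts (∑ j ∈ range p, mp (Ts^[j]) c) = ∑ j ∈ range p, mp (Ts^[j]) c := by
  rw [map_sum]
  have h1 : ∀ j ∈ range p, mp Ts (mp (Ts^[j]) c) = mp (Ts^[j + 1]) c := by
    intro j _
    rw [mp_mp, Function.iterate_succ']
  rw [sum_congr rfl h1]
  have h2 := sum_range_succ' (fun j => mp (Ts^[j]) c) p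
  have h3 := sum_range_succ (fun j => mp (Ts^[j]) c) p
  rw [h3] at h2
  have h4 : (Ts^[p] : Pt n p → Pt n p) = Ts^[0] := by
    ext1 x
    rw [Ts_iter_p]
    rfl
  rw [h4] at h2
  exact (add_right_cancel h2).symm

theorem sum_mp_Ts (c : Ch (Pt n p) p) :
    ∑ j ∈ range p, mp (Ts^[j]) (mp Ts c) = ∑ j ∈ range p, mp (Ts^[j]) c := by
  conv_rhs => rw [← mp_Ts_sum, map_sum]
  apply sum_congr rfl
  intro j _
  rw [mp_mp, mp_mp, ← Function.iterate_succ, ← Function.iterate_succ']

theorem bd_gam (R k : ℕ) : bd (gam n p k (al n p R k)) = 0 := by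
  induction k with
  | zero =>
    unfold gam
    rw [if_pos (by decide), map_sub, bd_mp]
    have e : bd (al n p R 0) = Finsupp.single [] 1 := by
      show bd (Finsupp.single [vx n p 0] 1) = _
      rw [bd_single]
      simp [bdL]
    rw [e, mp_single]
    simp
  | succ k ih =>
    have e : bd (al n p R (k + 1)) = gam n p k (al n p R k) :=
      bd_cone _ _ (ph_zero _ _) _ _ ih
    by_cases hk : Even k
    · have hk' : ¬ Even (k + 1) := by
        rw [Nat.even_add_one]
        simpa using hk
      rw [gam, if_neg hk', map_sum]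
      simp only [bd_mp]
      rw [e, gam, if_pos hk]
      simp only [map_sub]
      rw [sum_sub_distrib, sum_mp_Ts, sub_self]
    · have hk' : Even (k + 1) := by
        rw [Nat.even_add_one]
        exact hk
      rw [gam, if_pos hk', map_sub, bd_mp, e, gam, if_neg hk, mp_Ts_sum, sub_self]

theorem bd_al (R k : ℕ) : bd (al n p R (k + 1)) = gam n p k (al n p R k) :=
  bd_cone _ _ (ph_zero _ _) _ _ (bd_gam R k)

theorem mp_mem [NeZero p] {k : ℕ} {κ : ℝ} {c : Ch (Pt n p) p} (j : ℕ)
    (hc : c ∈ Finsupp.supported (ZMod p) (ZMod p) (Sm n p k κ)) :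
    mp (Ts^[j]) c ∈ Finsupp.supported (ZMod p) (ZMod p) (Sm n p k κ) := by
  apply lc_mem _ hc
  rintro L ⟨h1, h2, h3⟩
  apply Finsupp.single_mem_supported
  refine ⟨by simpa using h1, ?_, ?_⟩
  · intro w hw
    simp only [List.mem_map] at hw
    obtain ⟨a, ha, rfl⟩ := hw
    exact Ts_iter_mem (h2 a ha) j
  · intro w hw w' hw'
    simp only [List.mem_map] at hw hw'
    obtain ⟨a, ha, rfl⟩ := hw
    obtain ⟨a', ha', rfl⟩ := hw'
    exact (dist_Ts_iter_le _ _ _).trans (h3 a ha a' ha')

theorem gam_mem [NeZero p] {k : ℕ} {κ : ℝ} {c : Ch (Pt n p) p} (l : ℕ)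
    (hc : c ∈ Finsupp.supported (ZMod p) (ZMod p) (Sm n p k κ)) :
    gam n p l c ∈ Finsupp.supported (ZMod p) (ZMod p) (Sm n p k κ) := by
  unfold gam
  split_ifs
  · exact Submodule.sub_mem _ (mp_mem 1 hc) hc
  · exact Submodule.sum_mem _ (fun j _ => mp_mem j hc)

theorem al_mem [NeZero p] (R : ℕ) (k : ℕ) (hk : k < n) :
    al n p R k ∈ Finsupp.supported (ZMod p) (ZMod p) (Sm n p k (k / ((R + 1 : ℕ) : ℝ))) := by
  induction k with
  | zero =>
    apply Finsupp.single_mem_supported
    refine ⟨rfl, ?_, ?_⟩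
    · intro w hw
      simp only [List.mem_singleton] at hw
      subst hw
      exact vx_mem hk
    · intro w hw w' hw'
      simp only [List.mem_singleton] at hw hw'
      subst hw
      subst hw'
      simp
  | succ k ih =>
    have hg := gam_mem k (ih (by omega))
    set c := gam n p k (al n p R k) with hc
    have hR' : (0 : ℝ) < ((R + 1 : ℕ) : ℝ) := by positivity
    have hκ : ((k + 1 : ℕ) : ℝ) / ((R + 1 : ℕ) : ℝ) =
        (k : ℝ) / ((R + 1 : ℕ) : ℝ) + 1 / ((R + 1 : ℕ) : ℝ) := by
      push_cast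
      ring
    show cone (vx n p (k + 1)) (ph n p (k + 1) (R + 1)) R c ∈ _
    unfold cone
    apply Submodule.sub_mem
    · have e : cons (vx n p (k + 1)) (mp (ph n p (k + 1) (R + 1) R) c) =
          lc (fun L => Finsupp.single (vx n p (k + 1) :: L.map (ph n p (k + 1) (R + 1) R)) 1) c := by
        have := lin_ext (f := cons (vx n p (k + 1)) ∘ₗ mp (ph n p (k + 1) (R + 1) R))
          (g := lc (fun L => Finsupp.single (vx n p (k + 1) :: L.map (ph n p (k + 1) (R + 1) R)) 1))
          (fun L => by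
            simp only [LinearMap.comp_apply]
            rw [mp_single, cons_single, lc_single]) c
        simpa using this
      rw [e]
      apply lc_mem _ hg
      rintro L ⟨h1, h2, h3⟩
      apply Finsupp.single_mem_supported
      refine ⟨by simp [h1], ?_, ?_⟩
      · intro w hw
        simp only [List.mem_cons, List.mem_map] at hw
        rcases hw with rfl | ⟨a, ha, rfl⟩
        · exact vx_mem hk
        · exact ph_mem hk (Nat.le_succ R) (Nat.succ_pos R) (h2 a ha)
      · have hk0 : (0 : ℝ) ≤ (k : ℝ) / ((R + 1 : ℕ) : ℝ) := by positivity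
        have h10 : (0 : ℝ) ≤ 1 / ((R + 1 : ℕ) : ℝ) := by positivity
        intro w hw w' hw'
        simp only [List.mem_cons, List.mem_map] at hw hw'
        rw [hκ]
        rcases hw with rfl | ⟨a, ha, rfl⟩
        · rcases hw' with rfl | ⟨a', ha', rfl⟩
          · rw [dist_self]
            linarith
          · have := ph_dist_vx (R := R) hk (h2 a' ha')
            linarith
        · rcases hw' with rfl | ⟨a', ha', rfl⟩
          · have := ph_dist_vx (R := R) hk (h2 a ha)
            rw [dist_comm]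
            linarith
          · have := ph_dist (R := R + 1) (r := R) (r' := R) hk (Nat.le_succ R) (Nat.succ_pos R)
              (y := a') (h2 a ha) (by simp)
            have := h3 a ha a' ha'
            linarith
    · apply Submodule.sum_mem
      intro r hr
      rw [mem_range] at hr
      apply lc_mem _ hg
      rintro L ⟨h1, h2, h3⟩
      apply Finsupp.supported_mono _ (prL_supp _ _ L)
      rintro L' ⟨h4, h5⟩
      refine ⟨by rw [h4, h1], ?_, ?_⟩
      · intro u hu
        obtain ⟨a, ha, rfl | rfl⟩ := h5 u hu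
        · exact ph_mem hk (by omega) (Nat.succ_pos R) (h2 a ha)
        · exact ph_mem hk (by omega) (Nat.succ_pos R) (h2 a ha)
      · intro u hu u' hu'
        rw [hκ]
        obtain ⟨a, ha, rfl | rfl⟩ := h5 u hu
        · obtain ⟨a', ha', rfl | rfl⟩ := h5 u' hu'
          · have := ph_dist (R := R + 1) (r := r) (r' := r) hk (by omega) (Nat.succ_pos R)
              (y := a') (h2 a ha) (by simp)
            have := h3 a ha a' ha'
            linarith
          · have := ph_dist (R := R + 1) (r := r) (r' := r + 1) hk (by omega) (Nat.succ_pos R)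
              (y := a') (h2 a ha) (by push_cast; rw [abs_le]; constructor <;> linarith)
            have := h3 a ha a' ha'
            linarith
        · obtain ⟨a', ha', rfl | rfl⟩ := h5 u' hu'
          · have := ph_dist (R := R + 1) (r := r + 1) (r' := r) hk (by omega) (Nat.succ_pos R)
              (y := a') (h2 a ha) (by push_cast; rw [abs_le]; constructor <;> linarith)
            have := h3 a ha a' ha'
            linarith
          · have := ph_dist (R := R + 1) (r := r + 1) (r' := r + 1) hk (by omega) (Nat.succ_pos R)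
              (y := a') (h2 a ha) (by simp)
            have := h3 a ha a' ha'
            linarith

/-! ### labels -/

/-- the label product of a list -/
def Phi (lam : Pt n p → ZMod p × Fin m) : List (Pt n p) → LL m p
  | [] => one
  | w :: L => EE (lam w).1 (lam w).2 (Phi lam L)

theorem Phi_supp (lam : Pt n p → ZMod p × Fin m) (L : List (Pt n p)) (s : Cfg m p)
    (hs : Phi lam L s ≠ 0) (i : Fin m) (hi : s i ≠ none) :
    ∃ w ∈ L, (lam w).2 = i ∧ s i = some (lam w).1 := by
  induction L generalizing s with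
  | nil =>
    exfalso
    unfold Phi one at hs
    split_ifs at hs with h
    · exact hi (congrFun h i)
    · exact hs rfl
  | cons w L ih =>
    unfold Phi EE at hs
    split_ifs at hs with h
    · by_cases hwi : (lam w).2 = i
      · refine ⟨w, by simp, hwi, ?_⟩
        rw [← hwi]
        exact h
      · have h2 := ih _ (right_ne_zero_of_mul hs) (by
          rw [Function.update_of_ne (Ne.symm hwi)]
          exact hi)
        obtain ⟨a, ha, h3, h4⟩ := h2
        rw [Function.update_of_ne (Ne.symm hwi)] at h4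
        exact ⟨a, by simp [ha], h3, h4⟩
    · exact absurd rfl hs

theorem Phi_deg (lam : Pt n p → ZMod p × Fin m) (L : List (Pt n p)) (s : Cfg m p)
    (hs : Phi lam L s ≠ 0) : deg s = L.length := by
  induction L generalizing s with
  | nil =>
    unfold Phi one at hs
    split_ifs at hs with h
    · subst h
      simp [deg, emp]
    · exact absurd rfl hs
  | cons w L ih =>
    unfold Phi EE at hs
    split_ifs at hs with h
    · have h2 := ih _ (right_ne_zero_of_mul hs)
      have h3 := deg_update_some (s := Function.update s (lam w).2 none) (i := (lam w).2)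
        (by simp) (lam w).1
      rw [Function.update_idem, ← h, Function.update_eq_self] at h3
      rw [List.length_cons, ← h2, h3]
    · exact absurd rfl hs

/-- multiplication by a label as a linear map -/
def EEl (g : ZMod p) (i : Fin m) : LL m p →ₗ[ZMod p] LL m p where
  toFun := EE g i
  map_add' f f' := by
    ext1 s
    unfold EE
    simp only [Pi.add_apply]
    split_ifs <;> ring
  map_smul' a f := by
    ext1 s
    unfold EE
    simp only [Pi.smul_apply, smul_eq_mul, RingHom.id_apply]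
    split_ifs <;> ring

/-- the boundary as a linear map -/
def ddl [NeZero p] : LL m p →ₗ[ZMod p] LL m p where
  toFun := dd
  map_add' := dd_add
  map_smul' a f := by
    ext1 s
    unfold dd
    simp only [Pi.smul_apply, smul_eq_mul, RingHom.id_apply, mul_sum]
    apply sum_congr rfl
    intro i _
    apply sum_congr rfl
    intro g _
    ring

/-- the action as a linear map -/
def TTl : LL m p →ₗ[ZMod p] LL m p where
  toFun := TT
  map_add' _ _ := rfl
  map_smul' _ _ := rfl

/-- the linear extension of `Phi` -/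
noncomputable def PhC (lam : Pt n p → ZMod p × Fin m) : Ch (Pt n p) p →ₗ[ZMod p] LL m p :=
  lc (Phi lam)

theorem PhC_cons (lam : Pt n p → ZMod p × Fin m) (w : Pt n p) (c : Ch (Pt n p) p) :
    PhC lam (cons w c) = EE (lam w).1 (lam w).2 (PhC lam c) := by
  have := lin_ext (f := PhC lam ∘ₗ cons w) (g := EEl (lam w).1 (lam w).2 ∘ₗ PhC lam) (fun L => by
    simp only [LinearMap.comp_apply]
    rw [cons_single, PhC, lc_single, lc_single]
    rfl) c
  exact this

theorem dd_Phi [NeZero p] (lam : Pt n p → ZMod p × Fin m) (L : List (Pt n p))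
    (hL : ∀ w ∈ L, ∀ w' ∈ L, (lam w).2 = (lam w').2 → (lam w).1 = (lam w').1) :
    dd (Phi lam L) = PhC lam (bdL L) := by
  induction L with
  | nil =>
    rw [bdL, map_zero]
    ext1 s
    unfold dd Phi one
    simp only [Pi.zero_apply]
    apply sum_eq_zero
    intro i _
    rw [sum_eq_zero, mul_zero]
    intro g _
    rw [if_neg]
    intro h
    have := congrFun h i
    simp [emp] at this
  | cons w L ih =>
    have ih' := ih (fun a ha b hb => hL a (by simp [ha]) b (by simp [hb]))
    have e1 : PhC lam (bdL (w :: L)) = Phi lam L - EE (lam w).1 (lam w).2 (PhC lam (bdL L)) := by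
      rw [bdL, map_sub, PhC_cons, PhC, lc_single]
    rw [e1, ← ih']
    have e2 := dd_EE (lam w).1 (lam w).2 (Phi lam L) (fun s hs1 hs2 => by
      by_contra hne
      obtain ⟨a, ha, h3, h4⟩ := Phi_supp lam L s hne _ hs1
      apply hs2
      rw [h4, hL a (by simp [ha]) w (by simp) h3])
    ext1 s
    have := e2 s
    simp only [Pi.sub_apply]
    show dd (EE (lam w).1 (lam w).2 (Phi lam L)) s = _
    linear_combination this

theorem dd_PhC [NeZero p] (lam : Pt n p → ZMod p × Fin m) {S : Set (List (Pt n p))}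
    (hS : ∀ L ∈ S, ∀ w ∈ L, ∀ w' ∈ L, (lam w).2 = (lam w').2 → (lam w).1 = (lam w').1)
    {c : Ch (Pt n p) p} (hc : c ∈ Finsupp.supported (ZMod p) (ZMod p) S) :
    dd (PhC lam c) = PhC lam (bd c) := by
  have e1 : dd (PhC lam c) = ddl (PhC lam c) := rfl
  rw [e1, PhC, lc_comp, bd, lc_comp]
  apply lc_congr _ hc
  intro L hL
  exact dd_Phi lam L (hS L hL)

theorem Phi_Ts (lam : Pt n p → ZMod p × Fin m) (L : List (Pt n p))
    (hL : ∀ w ∈ L, lam (Ts w) = ((lam w).1 - 1, (lam w).2)) :
    Phi lam (L.map Ts) = TT (Phi lam L) := by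
  induction L with
  | nil => exact TT_one.symm
  | cons w L ih =>
    rw [List.map_cons, Phi, Phi, TT_EE, ih (fun a ha => hL a (by simp [ha])), hL w (by simp)]

theorem PhC_Ts (lam : Pt n p → ZMod p × Fin m) {S : Set (List (Pt n p))}
    (hS : ∀ L ∈ S, ∀ w ∈ L, lam (Ts w) = ((lam w).1 - 1, (lam w).2))
    {c : Ch (Pt n p) p} (hc : c ∈ Finsupp.supported (ZMod p) (ZMod p) S) :
    PhC lam (mp Ts c) = TT (PhC lam c) := by
  have e1 : TT (PhC lam c) = TTl (PhC lam c) := rfl
  rw [e1, PhC, lc_comp, mp, lc_comp]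
  apply lc_congr _ hc
  intro L hL
  rw [lc_single]
  exact Phi_Ts lam L (hS L hL)

theorem PhC_Ts_iter [NeZero p] (lam : Pt n p → ZMod p × Fin m)
    (hlam : ∀ x ∈ XE n p n, lam (Ts x) = ((lam x).1 - 1, (lam x).2)) {k : ℕ} {κ : ℝ}
    (hk : k ≤ n) {c : Ch (Pt n p) p}
    (hc : c ∈ Finsupp.supported (ZMod p) (ZMod p) (Sm n p k κ)) (j : ℕ) :
    PhC lam (mp (Ts^[j]) c) = TT^[j] (PhC lam c) := by
  have hXE : XE n p k ⊆ XE n p n := fun x hx => ⟨hx.1, hx.2.1, hx.2.2.1,
    fun i hi => absurd i.2 (by omega)⟩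
  induction j with
  | zero => rw [Function.iterate_zero, Function.iterate_zero]; exact congrArg _ (mp_id c)
  | succ j ih =>
    have e1 : mp (Ts^[j + 1]) c = mp Ts (mp (Ts^[j]) c) := by
      rw [mp_mp, Function.iterate_succ']
    rw [e1, PhC_Ts lam (S := Sm n p k κ) (fun L hL w hw => hlam w (hXE (hL.2.1 w hw)))
      (mp_mem j hc), ih, Function.iterate_succ_apply']

/-- the functions of degree `k` -/
def degSub (m p k : ℕ) : Submodule (ZMod p) (LL m p) where
  carrier := {f | ∀ s, f s ≠ 0 → deg s = k}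
  add_mem' := by
    intro f g hf hg s hs
    by_contra hne
    apply hs
    have h1 : f s = 0 := by
      by_contra h
      exact hne (hf s h)
    have h2 : g s = 0 := by
      by_contra h
      exact hne (hg s h)
    simp [h1, h2]
  zero_mem' := by
    intro s hs
    exact absurd rfl hs
  smul_mem' := by
    intro a f hf s hs
    apply hf
    intro h
    apply hs
    simp [h]

/-- there is no small equivariant labelling with less than `n` labels -/
theorem no_labelling [Fact p.Prime] (hp : (2 : ZMod p) ≠ 0) (hmn : m < n)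
    (lam : Pt n p → ZMod p × Fin m)
    (hlam : ∀ x ∈ XE n p n, lam (Ts x) = ((lam x).1 - 1, (lam x).2)) {η : ℝ} (hη : 0 < η)
    (hsmall : ∀ x ∈ XE n p n, ∀ y ∈ XE n p n, dist x y ≤ η → (lam x).2 = (lam y).2 →
      (lam x).1 = (lam y).1) : False := by
  obtain ⟨R, hR⟩ : ∃ R : ℕ, (m : ℝ) / ((R + 1 : ℕ) : ℝ) ≤ η := by
    obtain ⟨R, hR⟩ := exists_nat_gt ((m : ℝ) / η)
    refine ⟨R, ?_⟩
    rw [div_lt_iff₀ hη] at hR
    rw [div_le_iff₀ (by positivity)]
    push_cast
    nlinarith
  have hXE : ∀ k ≤ n, XE n p k ⊆ XE n p n := fun k hk x hx => ⟨hx.1, hx.2.1, hx.2.2.1,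
    fun i hi => absurd i.2 (by omega)⟩
  have hS : ∀ k ≤ m, ∀ L ∈ Sm n p k (k / ((R + 1 : ℕ) : ℝ)), ∀ w ∈ L, ∀ w' ∈ L,
      (lam w).2 = (lam w').2 → (lam w).1 = (lam w').1 := by
    intro k hk L hL w hw w' hw' h
    apply hsmall w (hXE k (by omega) (hL.2.1 w hw)) w' (hXE k (by omega) (hL.2.1 w' hw')) _ h
    refine (hL.2.2 w hw w' hw').trans (le_trans ?_ hR)
    gcongr
  -- truncate the chains beyond `m`
  apply algebra_contra (m := m) hp (fun k => if k ≤ m then PhC lam (al n p R k) else 0)
  · intro k s hs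
    by_cases hk : k ≤ m
    · simp only [if_pos hk] at hs
      have hmem : PhC lam (al n p R k) ∈ degSub m p (k + 1) := by
        apply lc_mem _ (al_mem R k (by omega))
        intro L hL s hs
        rw [Phi_deg lam L s hs, hL.1]
      exact hmem s hs
    · simp only [if_neg hk] at hs
      exact absurd rfl hs
  · simp only [Nat.zero_le, if_true]
    rw [dd_PhC lam (hS 0 (Nat.zero_le _)) (by simpa using al_mem R 0 (by omega))]
    have e : bd (al n p R 0) = Finsupp.single [] 1 := by
      show bd (Finsupp.single [vx n p 0] 1) = _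
      rw [bd_single]
      simp [bdL]
    rw [e, PhC, lc_single]
    simp [Phi, one]
  · intro k hk
    simp only [if_pos (show k + 1 ≤ m by omega), if_pos (show k ≤ m by omega)]
    rw [dd_PhC lam (hS (k + 1) (by omega)) (al_mem R (k + 1) (by omega)), bd_al, gam]
    have hm := al_mem (p := p) R k (show k < n by omega)
    split_ifs with he
    · rw [map_sub]
      congr 1
      exact PhC_Ts_iter lam hlam (by omega) hm 1
    · rw [map_sum]
      unfold NN
      apply sum_congr rfl
      intro j _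
      exact PhC_Ts_iter lam hlam (by omega) hm j

end Pool.Agent.Lib.MP_3f8c0b_an
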