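import Pool.Agent.Lib.MP_3f8c0b_an.Blocks

/-!
# The mean dimension of the system is zero
-/

set_option autoImplicit false

namespace Pool.Agent.Lib.MP_3f8c0b_an

open Finset

variable {M : ℕ}

theorem frac_bad {J : Type} {N q : ℕ} {s : J → ℕ} {y : J → ℝ} {i : J}
    (h : Frac (fun i u => thr N q (s i) u (y i)) i) : Bad N q (s i) (y i) := by
  obtain ⟨u, h1, h2⟩ := h
  have e1 := thr_pos h1
  have e2 := thr_lt_one h2
  refine ⟨(u : ℤ) - q - 1, ?_, ?_⟩
  · push_cast
    exact e1
  · push_cast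
    exact e2

/-- **Rounding of the system on finitely many windows.** -/
theorem round_windows {X : Type} [TopologicalSpace X] (ι : X → Om M) (hι : Continuous ι)
    (hX : ∀ x, ι x ∈ XX M) (m : ℕ) (C : Finset ℤ) :
    ∃ (V : Type) (_ : Fintype V) (f : X → V → ℝ), Continuous f ∧ (∀ y, f y ∈ stdSimplex ℝ V) ∧
      (∀ y, {v | f y v ≠ 0}.ncard ≤ C.card * kk M m + 1) ∧
      ∀ y y', f y = f y' → ∀ c ∈ C, ∀ s < Nw M m, ∀ r < m + 1, ∀ w,
        |ι y (c + s) r w - ι y' (c + s) r w| ≤ 2 / ((m : ℝ) + 1) := by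
  classical
  let J : Type := C × Cd M m
  let y : J → X → ℝ := fun i x => ev (sh i.1.1 (ι x)) i.2
  have hyc : ∀ i, Continuous (y i) := fun i => (ev_cont i.2).comp ((sh_cont _).comp hι)
  have hy1 : ∀ i x, |y i x| ≤ 1 := by
    intro i x
    have := hX x
    rw [XX, Set.mem_iInter] at this
    exact (this 0).1 _ _ _
  let θ : J → ℕ → X → ℝ := fun i u x => thr (Nw M m) (m + 1) (i.2.1 : ℕ) u (y i x)
  have hN := Nw_pos M m
  have hK : ∀ x, {i : J | Frac (fun i u => θ i u x) i}.ncard ≤ C.card * kk M m := by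
    intro x
    have h1 : {i : J | Frac (fun i u => θ i u x) i}
        ⊆ (((univ : Finset C).sigma fun c => badS m (sh c.1 (ι x))).image
          fun z => ((z.1, z.2) : J) : Finset J) := by
      intro i hi
      rw [mem_coe, mem_image]
      refine ⟨⟨i.1, i.2⟩, ?_, rfl⟩
      rw [mem_sigma]
      refine ⟨mem_univ _, ?_⟩
      rw [badS, mem_filter]
      exact ⟨mem_univ _, frac_bad (N := Nw M m) (q := m + 1) (s := fun i : J => (i.2.1 : ℕ))
        (y := fun i => y i x) (i := i) hi⟩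
    refine (Set.ncard_le_ncard h1 (finite_toSet _)).trans ?_
    rw [Set.ncard_coe_finset]
    refine card_image_le.trans ?_
    rw [card_sigma]
    calc _ ≤ ∑ _c : C, kk M m := by
          apply sum_le_sum
          intro c _
          have h2 := hX x
          rw [XX, Set.mem_iInter] at h2
          have h3 := (h2 (m + 1)).2.2 c.1 m (Nat.lt_succ_self m)
          simp only [UU, Set.mem_ofPred_eq, not_le] at h3
          omega
      _ = _ := by rw [sum_const, card_univ, Fintype.card_coe, smul_eq_mul]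
  obtain ⟨V, hV, f, h1, h2, h3, h4⟩ := rounding (R := 2 * (m + 1) + 1) θ
    (fun i u => (thr_cont _ _ _ _).comp (hyc i)) (fun x i => thr_anti _ _ _ _)
    (fun x i u => thr_mem _ _ _ _ _)
    (fun x i => thr_zero i.2.1.2 (abs_le.1 (hy1 i x)).1) (fun x i => thr_last (abs_le.1 (hy1 i x)).2)
    (fun x i u u' a b c d => by rw [thr_uniq hN a b c d]) hK
  refine ⟨V, hV, f, h1, h2, h3, ?_⟩
  intro x x' hxx c hc s hs r hr w
  obtain ⟨u, _, ⟨ha, hb⟩⟩ := h4 x x' hxx (⟨c, hc⟩, (⟨s, hs⟩, ⟨r, hr⟩, w))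
  simp only [θ] at ha hb
  have hval : ∀ x, y (⟨c, hc⟩, (⟨s, hs⟩, ⟨r, hr⟩, w)) x = ι x (c + s) r w := by
    intro x
    simp only [y, ev, sh]
    rw [add_comm]
  rw [hval] at ha hb
  have a1 := thr_pos ((thr_mem _ _ _ _ _).1.trans_lt ha)
  have a2 := thr_lt_one (ha.trans_le (thr_mem _ _ _ _ _).2)
  have b1 := thr_pos ((thr_mem _ _ _ _ _).1.trans_lt hb)
  have b2 := thr_lt_one (hb.trans_le (thr_mem _ _ _ _ _).2)
  have hN1 : (1 : ℝ) ≤ Nw M m := by exact_mod_cast hN
  push_cast at a1 a2 b1 b2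
  have hm : (0 : ℝ) < (m : ℝ) + 1 := by positivity
  have key : |((m : ℝ) + 1) * Nw M m * (ι x (c + s) r w - ι x' (c + s) r w)| ≤ Nw M m + 1 := by
    rw [abs_le]
    constructor <;> nlinarith
  rw [abs_mul, abs_of_pos (by positivity)] at key
  rw [le_div_iff₀ hm]
  have h5 : ((Nw M m : ℕ) : ℝ) * (|ι x (c + s) r w - ι x' (c + s) r w| * (m + 1))
      ≤ (Nw M m : ℕ) * 2 := by
    calc _ = ((m : ℝ) + 1) * Nw M m * |ι x (c + s) r w - ι x' (c + s) r w| := by ring
      _ ≤ Nw M m + 1 := key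
      _ ≤ _ := by linarith
  exact le_of_mul_le_mul_left h5 (by linarith)

/-- points with close coordinates are close -/
theorem close_of_coords {X : Type} [MetricSpace X] [CompactSpace X] (ι : X → Om M)
    (hι : Continuous ι) (hinj : Function.Injective ι) {ε : ℝ} (hε : 0 < ε) :
    ∃ n : ℕ, ∀ x x' : X, (∀ j : ℤ, |j| ≤ n → ∀ r < n, ∀ w,
      |ι x j r w - ι x' j r w| ≤ 1 / ((n : ℝ) + 1)) → dist x x' < ε := by
  let V : ℕ → Set (X × X) := fun n => {z | ∀ j : ℤ, |j| ≤ n → ∀ r < n, ∀ w,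
      |ι z.1 j r w - ι z.2 j r w| ≤ 1 / ((n : ℝ) + 1)}
  have hanti : ∀ {n n' : ℕ}, n ≤ n' → V n' ⊆ V n := by
    intro n n' h z hz j hj r hr w
    have h' : (n : ℝ) ≤ n' := by exact_mod_cast h
    refine (hz j (hj.trans (by exact_mod_cast h)) r (hr.trans_le h) w).trans ?_
    exact one_div_le_one_div_of_le (by positivity) (by linarith)
  have hcl : ∀ n, IsClosed (V n) := by
    intro n
    simp only [V, Set.ofPred_forall]
    refine isClosed_iInter fun j => isClosed_iInter fun _ => isClosed_iInter fun r =>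
      isClosed_iInter fun _ => isClosed_iInter fun w => ?_
    refine isClosed_le ?_ continuous_const
    have e : ∀ j r w, Continuous fun x => ι x j r w := fun j r w =>
      continuous_pi_iff.1 (continuous_pi_iff.1 (continuous_pi_iff.1 hι j) r) w
    exact (((e j r w).comp continuous_fst).sub ((e j r w).comp continuous_snd)).abs
  obtain ⟨n, hn⟩ := exists_subset_nhds_of_isCompact' (V := V)
    (U := {z : X × X | dist z.1 z.2 < ε}) (fun n n' => ⟨max n n', hanti (le_max_left _ _),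
      hanti (le_max_right _ _)⟩) (fun n => (hcl n).isCompact) hcl (by
    intro z hz
    refine (isOpen_lt continuous_dist continuous_const).mem_nhds ?_
    rw [Set.mem_iInter] at hz
    have h1 : z.1 = z.2 := by
      apply hinj
      funext j r w
      by_contra hne
      have hpos : 0 < |ι z.1 j r w - ι z.2 j r w| := abs_pos.2 (sub_ne_zero.2 hne)
      obtain ⟨n0, hn0⟩ := exists_nat_one_div_lt hpos
      have h2 := hz (max n0 (max (r + 1) j.natAbs)) j (by
        rw [Int.abs_eq_natAbs]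
        exact_mod_cast (le_max_right _ _).trans (le_max_right _ _)) r (by
        have : r + 1 ≤ max n0 (max (r + 1) j.natAbs) := (le_max_left _ _).trans (le_max_right _ _)
        omega) w
      have h3 : (n0 : ℝ) ≤ (max n0 (max (r + 1) j.natAbs) : ℕ) := by
        exact_mod_cast le_max_left _ _
      have h4 : 1 / (((max n0 (max (r + 1) j.natAbs) : ℕ) : ℝ) + 1) ≤ 1 / ((n0 : ℝ) + 1) :=
        one_div_le_one_div_of_le (by positivity) (by linarith)
      linarith
    simp only [Set.mem_ofPred_eq]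
    rw [h1, dist_self]
    exact hε)
  exact ⟨n, fun x x' h => hn (a := (x, x')) h⟩

section Act

variable {k : ℕ} {X : Type} [MetricSpace X] [CompactSpace X] [AddAction (Fin k → ℤ) X]

open Filter

/-- **Mean dimension zero.** -/
theorem mdim_zero (hM : 0 < M) (ι : X → Om M)
    (hι : Continuous ι) (hinj : Function.Injective ι) (hX : ∀ x, ι x ∈ XX M) (i0 : Fin k)
    (hact : ∀ (a : Fin k → ℤ) (x : X), ι (a +ᵥ x) = sh (a i0) (ι x))
    (A : AddSubgroup (Fin k → ℤ)) (F : ℕ → Finset ((Fin k → ℤ) ⧸ A)) (hF : IsFolner F) :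
    mdim X A F = 0 := by
  classical
  refine mdim_eq_zero hF.1 fun ε hε η hη => ?_
  by_cases hA : ∀ a ∈ A, a i0 = 0
  swap
  · -- no fixed points
    push Not at hA
    obtain ⟨a, haA, ha⟩ := hA
    have hemp : IsEmpty (fixedPts X A) := by
      refine ⟨fun x => ?_⟩
      have h1 : ι (a +ᵥ x.1) = ι x.1 := by rw [x.2 a haA]
      rw [hact] at h1
      exact sh_ne hM (hX x.1) ha h1
    refine Eventually.of_forall fun N => ⟨0, widimLE_of_isEmpty hemp hε, ?_⟩
    push_cast
    positivity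
  -- the map onto the integers
  let π : (Fin k → ℤ) ⧸ A →+ ℤ := QuotientAddGroup.lift A (Pi.evalAddMonoidHom (fun _ => ℤ) i0)
    (fun a ha => hA a ha)
  have hπ : ∀ a : Fin k → ℤ, π (a : (Fin k → ℤ) ⧸ A) = a i0 := fun a => rfl
  let g1 : (Fin k → ℤ) ⧸ A := ((Pi.single i0 1 : Fin k → ℤ) : (Fin k → ℤ) ⧸ A)
  have hg1 : π g1 = 1 := by
    rw [hπ]
    simp
  obtain ⟨n, hn⟩ := close_of_coords ι hι hinj (half_pos hε)
  obtain ⟨m0, hm0⟩ := exists_nat_gt (2 / η)
  -- the parameter `m`
  obtain ⟨m, hm1, hm2⟩ : ∃ m : ℕ, m0 ≤ m ∧ 2 * (n + 1) ≤ m := ⟨max m0 (2 * (n + 1)),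
    le_max_left _ _, le_max_right _ _⟩
  have hkk : m + 1 ≤ kk M m := by
    unfold kk
    have h1 : 0 < Fintype.card (Wd M) := Fintype.card_pos
    have h2 : 0 < 2 ^ (m + 2) := by positivity
    calc m + 1 = (m + 1) * 1 * 1 := by ring
      _ ≤ _ := Nat.mul_le_mul (Nat.mul_le_mul le_rfl h1) h2
  have hL0 : m * (kk M m + 1) + 2 * n ≤ Nw M m := by
    unfold Nw
    nlinarith
  obtain ⟨L, hL⟩ : ∃ L, L + 2 * n = Nw M m := ⟨Nw M m - 2 * n, by omega⟩
  have hLm : m * (kk M m + 1) ≤ L := by omega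
  have hLpos : 0 < L := lt_of_lt_of_le (by
    have : 0 < m := by omega
    positivity) hLm
  have hη' : 0 < η / (2 * (kk M m : ℝ) + 1) := by positivity
  filter_upwards [block_limit π g1 hg1 hF hLpos hη'] with N hN
  let B := (F N).image fun f => π f / (L : ℤ)
  let C := B.image fun c : ℤ => c * L - n
  have hCB : C.card ≤ B.card := card_image_le
  obtain ⟨V, hV, f, h1, h2, h3, h4⟩ := round_windows ι hι hX m C
  refine ⟨B.card * kk M m, ?_, ?_⟩
  · refine widimLE_of_map (ε' := ε / 2) (by linarith) V f h1 h2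
      (fun y => (h3 y).trans (Nat.add_le_add_right (Nat.mul_le_mul_right _ hCB) 1)) ?_
    intro y y' hyy a ha
    refine (hn _ _ fun j hj r hr w => ?_).le
    rw [hact, hact]
    simp only [sh]
    have hL' : (0 : ℤ) < L := by exact_mod_cast hLpos
    have hr1 : a i0 / (L : ℤ) * L ≤ a i0 := Int.ediv_mul_le _ hL'.ne'
    have hr2 := Int.lt_ediv_add_one_mul_self (a i0) hL'
    have hcC : a i0 / (L : ℤ) * L - n ∈ C := by
      refine mem_image.2 ⟨a i0 / (L : ℤ), ?_, rfl⟩
      exact mem_image.2 ⟨(a : (Fin k → ℤ) ⧸ A), ha, by rw [hπ]⟩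
    have hj' := abs_le.1 hj
    obtain ⟨s, hs⟩ : ∃ s : ℕ, j + a i0 = a i0 / (L : ℤ) * L - n + s :=
      ⟨(j + a i0 - (a i0 / (L : ℤ) * L - n)).toNat, by
        rw [Int.toNat_of_nonneg (by linarith [hj'.1])]
        ring⟩
    have hs' : s < Nw M m := by
      have hL'' : (L : ℤ) + 2 * n = Nw M m := by exact_mod_cast hL
      have : (s : ℤ) < Nw M m := by
        rw [← hL'']
        have := hj'.2
        nlinarith
      exact_mod_cast this
    rw [hs]
    refine (h4 y y' hyy _ hcC s hs' r (by omega) w).trans ?_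
    have e1 : (2 : ℝ) * (n + 1) ≤ m := by exact_mod_cast hm2
    rw [div_le_div_iff₀ (by positivity) (by positivity)]
    linarith
  · push_cast
    have hc : (0 : ℝ) < (F N).card := by exact_mod_cast (hF.1 N).card_pos
    have hLr : (m : ℝ) * (kk M m + 1) ≤ L := by exact_mod_cast hLm
    have hmr : (0 : ℝ) < m := by
      have : 0 < m := by omega
      exact_mod_cast this
    have hLr0 : (0 : ℝ) < L := by exact_mod_cast hLpos
    have e1 : (kk M m : ℝ) * (1 / L) ≤ 1 / m := by
      rw [mul_one_div, div_le_div_iff₀ hLr0 hmr]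
      nlinarith
    have e2 : 1 / (m : ℝ) ≤ η / 2 := by
      have : 2 / η ≤ m := hm0.le.trans (by exact_mod_cast hm1)
      rw [div_le_iff₀ hη] at this
      rw [div_le_iff₀ hmr]
      linarith
    have e3 : (kk M m : ℝ) * (η / (2 * (kk M m : ℝ) + 1)) ≤ η / 2 := by
      rw [mul_div_assoc', div_le_div_iff₀ (by positivity) (by norm_num)]
      nlinarith [Nat.cast_nonneg (α := ℝ) (kk M m)]
    calc (B.card : ℝ) * kk M m ≤ ((1 / L + η / (2 * (kk M m : ℝ) + 1)) * (F N).card) * kk M m := by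
          gcongr
      _ = ((kk M m : ℝ) * (1 / L) + (kk M m : ℝ) * (η / (2 * (kk M m : ℝ) + 1)))
          * (F N).card := by ring
      _ ≤ (η / 2 + η / 2) * (F N).card := by
          gcongr
          exact e1.trans e2
      _ = η * (F N).card := by ring

end Act

end Pool.Agent.Lib.MP_3f8c0b_an
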