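import Mathlib

/-!
# Mean dimension of the systems `(X_A, ℤ ^ k / A)`

For a compact metric space `X` with an action of `ℤ ^ k` and a subgroup `A` of `ℤ ^ k` we define the
mean dimension of the system `(X_A, ℤ ^ k / A)`, where `X_A` is the set of the points fixed by `A`.
-/

set_option autoImplicit false

namespace Pool.Agent.Lib.MP_3f8c0b_an

open Filter

/-- The sequence `F` of finite subsets of the abelian group `G` is a Følner sequence: the sets are
nonempty and `|(g + F N) ∆ F N| / |F N|` tends to `0` for every `g`. -/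
def IsFolner {G : Type} [AddCommGroup G] (F : ℕ → Finset G) : Prop :=
  (∀ N, (F N).Nonempty) ∧ ∀ g : G, Tendsto (fun N =>
    ((symmDiff ((fun h => g + h) '' (F N : Set G)) (F N : Set G)).ncard : ℝ) / (F N).card)
    atTop (nhds 0)

section Mdim

variable {k : ℕ} (X : Type) [MetricSpace X] [AddAction (Fin k → ℤ) X]

/-- The set `X_A` of the points fixed by all elements of the subgroup `A` of `ℤ ^ k`. -/
def fixedPts (A : AddSubgroup (Fin k → ℤ)) : Set X := {x | ∀ a ∈ A, a +ᵥ x = x}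

/-- `Widim_ε(X_A, d_F) ≤ n`: there are a finite simplicial complex `P` of dimension at most `n` and
a continuous map `f` of `X_A` into `P` whose fibres have `d_F`-diameter at most some `ε' < ε`.
Here `F` is a finite subset of the quotient group `ℤ ^ k / A` and
`d_F(y, y') = max {d(a y, a y') : a + A ∈ F}`; for `y, y'` in `X_A` the points `a y, a y'` depend
only on the coset `a + A`. -/
def WidimLE (A : AddSubgroup (Fin k → ℤ)) (F : Finset ((Fin k → ℤ) ⧸ A)) (ε : ℝ) (n : ℕ) : Prop :=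
  ∃ (s : ℕ) (P : Geometry.SimplicialComplex ℝ (Fin s → ℝ)) (f : fixedPts X A → (Fin s → ℝ)),
    P.faces.Finite ∧ (∀ σ ∈ P.faces, σ.card ≤ n + 1) ∧ Continuous f ∧ (∀ y, f y ∈ P.space) ∧
    ∃ ε' < ε, ∀ y y' : fixedPts X A, f y = f y' →
      ∀ a : Fin k → ℤ, (a : (Fin k → ℤ) ⧸ A) ∈ F → dist (a +ᵥ y.1) (a +ᵥ y'.1) ≤ ε'

/-- `Widim_ε(X_A, d_F)`: the least such `n`. -/
noncomputable def widim (A : AddSubgroup (Fin k → ℤ)) (F : Finset ((Fin k → ℤ) ⧸ A)) (ε : ℝ) :
    ENNReal :=
  ⨅ n : {n : ℕ // WidimLE X A F ε n}, ((n.1 : ℕ) : ENNReal)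

/-- The mean dimension of `(X_A, ℤ ^ k / A)`, computed with the sequence `F` of finite subsets of
`ℤ ^ k / A`: the supremum over `ε > 0` of the upper limit of `Widim_ε(X_A, d_{F N}) / |F N|`. -/
noncomputable def mdim (A : AddSubgroup (Fin k → ℤ)) (F : ℕ → Finset ((Fin k → ℤ) ⧸ A)) :
    ENNReal :=
  ⨆ ε : {ε : ℝ // 0 < ε}, limsup (fun N => widim X A (F N) ε.1 / ((F N).card : ENNReal)) atTop

end Mdim

end Pool.Agent.Lib.MP_3f8c0b_an
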