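import Pool.Agent.Lib.MP_3f8c0b_an.BU

/-!
# Periodic sequences with all lags separated, parametrised by the join
-/

set_option autoImplicit false

namespace Pool.Agent.Lib.MP_3f8c0b_an

open Finset

section Zsum

variable {p : ℕ}

/-- solution of `z (j + r) - z j = v j` -/
noncomputable def zs (v : ZMod p → ℝ) (r j : ZMod p) : ℝ :=
  (∑ u ∈ range p, (u : ℝ) * v (j + r * (u : ZMod p))) / p

theorem sum_range_eq [Fact p.Prime] (v : ZMod p → ℝ) {r : ZMod p} (hr : r ≠ 0) (j : ZMod p) :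
    ∑ u ∈ range p, v (j + r * (u : ZMod p)) = ∑ h, v h := by
  have hp : 0 < p := (Fact.out : p.Prime).pos
  symm
  refine sum_bij' (fun h _ => (r⁻¹ * (h - j)).val) (fun u _ => j + r * (u : ZMod p)) ?_ ?_ ?_ ?_ ?_
  · intro h _
    exact mem_range.2 (ZMod.val_lt _)
  · intro u _
    exact mem_univ _
  · intro h _
    simp only [ZMod.natCast_zmod_val]
    rw [← mul_assoc, mul_inv_cancel₀ hr]
    ring
  · intro u hu
    have : r⁻¹ * (j + r * (u : ZMod p) - j) = (u : ZMod p) := by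
      rw [add_sub_cancel_left, ← mul_assoc, inv_mul_cancel₀ hr, one_mul]
    rw [this]
    exact ZMod.val_cast_of_lt (mem_range.1 hu)
  · intro h _
    simp only [ZMod.natCast_zmod_val]
    rw [← mul_assoc, mul_inv_cancel₀ hr]
    congr 1
    ring

theorem zs_shift [Fact p.Prime] (v : ZMod p → ℝ) (hv : ∑ h, v h = 0) {r : ZMod p} (hr : r ≠ 0)
    (j : ZMod p) : zs v r (j + r) - zs v r j = v j := by
  have hp : 0 < p := (Fact.out : p.Prime).pos
  have hp' : (p : ℝ) ≠ 0 := by positivity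
  obtain ⟨P, rfl⟩ : ∃ P, p = P + 1 := ⟨p - 1, by omega⟩
  have key : ∑ u ∈ range (P + 1), (u : ℝ) * v (j + r + r * (u : ZMod (P + 1)))
      = ∑ u ∈ range (P + 1), (u : ℝ) * v (j + r * (u : ZMod (P + 1))) + (P + 1 : ℕ) * v j := by
    have h1 : ∑ u ∈ range (P + 1), (u : ℝ) * v (j + r + r * (u : ZMod (P + 1)))
        = ∑ u ∈ range (P + 1), (((u + 1 : ℕ) : ℝ) - 1) * v (j + r * ((u + 1 : ℕ) : ZMod (P + 1))) := by
      apply sum_congr rfl
      intro u _
      congr 1
      · push_cast; ring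
      · congr 1
        push_cast
        ring
    rw [h1, sum_range_succ (fun u => (((u + 1 : ℕ) : ℝ) - 1) * v (j + r * ((u + 1 : ℕ) : ZMod (P + 1)))) P]
    have h2 := sum_range_succ' (fun u => ((u : ℝ) - 1) * v (j + r * (u : ZMod (P + 1)))) P
    have h3 : ∑ u ∈ range (P + 1), ((u : ℝ) - 1) * v (j + r * (u : ZMod (P + 1)))
        = ∑ u ∈ range (P + 1), (u : ℝ) * v (j + r * (u : ZMod (P + 1))) := by
      have h4 := sum_range_eq v hr j
      rw [hv] at h4
      simp only [sub_mul, one_mul, sum_sub_distrib]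
      rw [h4, sub_zero]
    rw [h3] at h2
    have h5 : (((P + 1 : ℕ) : ZMod (P + 1))) = 0 := ZMod.natCast_self (P + 1)
    simp only [Nat.cast_zero, mul_zero, add_zero, zero_sub] at h2
    rw [h2, h5]
    simp only [mul_zero, add_zero]
    push_cast
    ring
  unfold zs
  rw [← sub_div, key]
  rw [add_sub_cancel_left]
  field_simp

end Zsum

section Sep

theorem abs_sin_sum_le {ι : Type*} (s : Finset ι) (f : ι → ℝ) :
    |Real.sin (∑ i ∈ s, f i)| ≤ ∑ i ∈ s, |Real.sin (f i)| := by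
  classical
  induction s using Finset.induction_on with
  | empty => simp
  | insert a s ha ih =>
    rw [sum_insert ha, sum_insert ha]
    calc |Real.sin (f a + ∑ i ∈ s, f i)|
        = |Real.sin (f a) * Real.cos (∑ i ∈ s, f i) + Real.cos (f a) * Real.sin (∑ i ∈ s, f i)| := by
          rw [Real.sin_add]
      _ ≤ |Real.sin (f a) * Real.cos (∑ i ∈ s, f i)| + |Real.cos (f a) * Real.sin (∑ i ∈ s, f i)| :=
          abs_add_le _ _
      _ ≤ |Real.sin (f a)| * 1 + 1 * |Real.sin (∑ i ∈ s, f i)| := by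
          rw [abs_mul, abs_mul]
          gcongr
          · exact Real.abs_cos_le_one _
          · exact Real.abs_cos_le_one _
      _ ≤ _ := by rw [mul_one, one_mul]; gcongr

theorem one_sub_cos_eq (x : ℝ) : 1 - Real.cos x = 2 * Real.sin (x / 2) ^ 2 := by
  have h := Real.cos_sq (x / 2)
  have h2 := Real.sin_sq_add_cos_sq (x / 2)
  have h3 : 2 * (x / 2) = x := by ring
  rw [h3] at h
  nlinarith

theorem sep_aux {M : ℕ} (hM : 0 < M) (v : Fin M → ℝ)
    (h : ∀ b, 1 - Real.cos (v b) < 1 / (M : ℝ) ^ 2) :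
    1 ≤ 1 - Real.cos (∑ b, |v b| - Real.pi) := by
  have hM' : (0 : ℝ) < M := by exact_mod_cast hM
  rw [Real.cos_sub_pi]
  have h1 : |Real.sin ((∑ b, |v b|) / 2)| ≤ ∑ b, |Real.sin (v b / 2)| := by
    rw [sum_div]
    refine (abs_sin_sum_le _ _).trans (le_of_eq (sum_congr rfl fun b _ => ?_))
    rcases abs_cases (v b) with ⟨h, _⟩ | ⟨h, _⟩
    · rw [h]
    · rw [h, neg_div, Real.sin_neg, abs_neg]
  have h2 : ∀ b, |Real.sin (v b / 2)| ^ 2 ≤ 1 / (2 * (M : ℝ) ^ 2) := by
    intro b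
    have := h b
    rw [one_sub_cos_eq] at this
    rw [sq_abs]
    rw [show 1 / (2 * (M : ℝ) ^ 2) = 1 / (M : ℝ) ^ 2 / 2 by field_simp]
    linarith
  have h3 : (∑ b, |Real.sin (v b / 2)|) ^ 2 ≤ 1 / 2 := by
    have h4 := sq_sum_le_card_mul_sum_sq (s := (univ : Finset (Fin M)))
      (f := fun b => |Real.sin (v b / 2)|)
    have h5 : ∑ b : Fin M, |Real.sin (v b / 2)| ^ 2 ≤ ∑ _b : Fin M, 1 / (2 * (M : ℝ) ^ 2) :=
      sum_le_sum fun b _ => h2 b
    rw [sum_const, card_univ, Fintype.card_fin, nsmul_eq_mul] at h5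
    rw [card_univ, Fintype.card_fin] at h4
    calc _ ≤ (M : ℝ) * ∑ b : Fin M, |Real.sin (v b / 2)| ^ 2 := h4
      _ ≤ (M : ℝ) * (M * (1 / (2 * (M : ℝ) ^ 2))) := by gcongr
      _ = 1 / 2 := by field_simp
  have h6 : Real.sin ((∑ b, |v b|) / 2) ^ 2 ≤ 1 / 2 := by
    rw [← sq_abs]
    refine le_trans ?_ h3
    gcongr
  have h7 := one_sub_cos_eq (∑ b, |v b|)
  linarith

theorem sep_cs {z z' v : ℝ} {M : ℕ} (hM : 0 < M) (hz : z' - z = v)
    (h : 1 / (M : ℝ) ^ 2 ≤ 1 - Real.cos v) :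
    1 / (M : ℝ) ≤ |Real.cos z' - Real.cos z| ∨ 1 / (M : ℝ) ≤ |Real.sin z' - Real.sin z| := by
  have hM' : (0 : ℝ) < M := by exact_mod_cast hM
  by_contra hcon
  push Not at hcon
  obtain ⟨h1, h2⟩ := hcon
  have h3 : (Real.cos z' - Real.cos z) ^ 2 + (Real.sin z' - Real.sin z) ^ 2
      = 2 * (1 - Real.cos v) := by
    rw [← hz, Real.cos_sub]
    have e1 := Real.sin_sq_add_cos_sq z
    have e2 := Real.sin_sq_add_cos_sq z'
    nlinarith
  have h4 : (Real.cos z' - Real.cos z) ^ 2 < 1 / (M : ℝ) ^ 2 := by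
    rw [← sq_abs, show 1 / (M : ℝ) ^ 2 = (1 / (M : ℝ)) ^ 2 by rw [div_pow, one_pow]]
    gcongr
  have h5 : (Real.sin z' - Real.sin z) ^ 2 < 1 / (M : ℝ) ^ 2 := by
    rw [← sq_abs, show 1 / (M : ℝ) ^ 2 = (1 / (M : ℝ)) ^ 2 by rw [div_pow, one_pow]]
    gcongr
  linarith

end Sep

section Vf

variable {M p : ℕ}

/-- sum of the weights of a block -/
noncomputable def bA (x : Pt (M * (p - 1)) p) (b : Fin M) (j : ZMod p) : ℝ :=
  ∑ i : Fin (p - 1), x (finProdFinEquiv (b, i)) j

/-- the deviation from the mean -/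
noncomputable def ba [NeZero p] (x : Pt (M * (p - 1)) p) (b : Fin M) (j : ZMod p) : ℝ :=
  bA x b j - (∑ h, bA x b h) / p

/-- sum of the absolute values of the deviations -/
noncomputable def bS [NeZero p] (x : Pt (M * (p - 1)) p) (j : ZMod p) : ℝ := ∑ b, |ba x b j|

/-- its mean -/
noncomputable def bmu [NeZero p] (x : Pt (M * (p - 1)) p) : ℝ := (∑ h, bS x h) / p

/-- the increments -/
noncomputable def bV [NeZero p] (x : Pt (M * (p - 1)) p) (l : Fin (M + 1)) (j : ZMod p) : ℝ :=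
  Fin.lastCases (motive := fun _ => ℝ) (Real.pi * bS x j / bmu x - Real.pi)
    (fun b => Real.pi * ba x b j / bmu x) l

theorem sum_Tg {f : ZMod p → ℝ} [NeZero p] (g : ZMod p) : ∑ h, f (h + g) = ∑ h, f h :=
  Fintype.sum_equiv (Equiv.addRight g) _ _ fun _ => rfl

theorem bA_Tg (g : ZMod p) (x : Pt (M * (p - 1)) p) (b : Fin M) (j : ZMod p) :
    bA (Tg g x) b j = bA x b (j + g) := rfl

theorem ba_Tg [NeZero p] (g : ZMod p) (x : Pt (M * (p - 1)) p) (b : Fin M) (j : ZMod p) :
    ba (Tg g x) b j = ba x b (j + g) := by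
  unfold ba
  simp only [bA_Tg]
  rw [sum_Tg (f := fun h => bA x b h)]

theorem bS_Tg [NeZero p] (g : ZMod p) (x : Pt (M * (p - 1)) p) (j : ZMod p) :
    bS (Tg g x) j = bS x (j + g) := by
  unfold bS
  simp only [ba_Tg]

theorem bmu_Tg [NeZero p] (g : ZMod p) (x : Pt (M * (p - 1)) p) : bmu (Tg g x) = bmu x := by
  unfold bmu
  simp only [bS_Tg]
  rw [sum_Tg (f := fun h => bS x h)]

theorem bV_Tg [NeZero p] (g : ZMod p) (x : Pt (M * (p - 1)) p) (l : Fin (M + 1)) (j : ZMod p) :
    bV (Tg g x) l j = bV x l (j + g) := by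
  unfold bV
  simp only [ba_Tg, bS_Tg, bmu_Tg]

theorem sum_ba [NeZero p] (x : Pt (M * (p - 1)) p) (b : Fin M) : ∑ j, ba x b j = 0 := by
  unfold ba
  rw [sum_sub_distrib, sum_const, card_univ, ZMod.card, nsmul_eq_mul]
  have : (p : ℝ) ≠ 0 := by exact_mod_cast NeZero.ne p
  field_simp
  ring

theorem bmu_pos [Fact p.Prime] {x : Pt (M * (p - 1)) p} {k : ℕ} (hx : x ∈ XE (M * (p - 1)) p k) :
    0 < bmu x := by
  classical
  obtain ⟨h1, h2, h3, _⟩ := hx
  have hp : 0 < p := (Fact.out : p.Prime).pos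
  have hp' : (0 : ℝ) < p := by exact_mod_cast hp
  -- a nonzero weight
  obtain ⟨i0, g0, hig⟩ : ∃ i g, x i g ≠ 0 := by
    by_contra hcon
    push Not at hcon
    rw [sum_congr rfl fun i _ => sum_congr rfl fun g _ => hcon i g] at h2
    simp at h2
  obtain ⟨⟨b, i⟩, hi0'⟩ := finProdFinEquiv.surjective i0
  have hi0 : i0 = finProdFinEquiv (b, i) := hi0'.symm
  have hA0 : 0 < bA x b g0 := by
    unfold bA
    refine lt_of_lt_of_le ?_ (single_le_sum (f := fun i => x (finProdFinEquiv (b, i)) g0)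
      (fun i _ => h1 _ _) (mem_univ i))
    rw [← hi0]
    exact lt_of_le_of_ne (h1 _ _) (Ne.symm hig)
  -- a zero of `bA x b`
  obtain ⟨g1, hg1⟩ : ∃ g, bA x b g = 0 := by
    by_contra hcon
    push Not at hcon
    have h4 : ∀ g : ZMod p, ∃ i : Fin (p - 1), x (finProdFinEquiv (b, i)) g ≠ 0 := by
      intro g
      by_contra hc
      push Not at hc
      exact hcon g (by unfold bA; exact sum_eq_zero fun i _ => hc i)
    choose c hc using h4
    have hinj : Function.Injective c := by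
      intro g g' hgg
      have := hc g
      rw [hgg] at this
      exact h3 _ _ _ this (hc g')
    have := Fintype.card_le_of_injective c hinj
    rw [ZMod.card, Fintype.card_fin] at this
    omega
  -- so some deviation is nonzero
  have h5 : ba x b g0 ≠ ba x b g1 := by
    unfold ba
    intro hcon
    rw [sub_left_inj, hg1] at hcon
    linarith
  have hS : ∀ g, 0 ≤ bS x g := fun g => sum_nonneg fun b _ => abs_nonneg _
  obtain ⟨g, hg⟩ : ∃ g, ba x b g ≠ 0 := by
    by_contra hcon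
    push Not at hcon
    rw [hcon, hcon] at h5
    exact h5 rfl
  have h6 : 0 < bS x g := by
    refine lt_of_lt_of_le (abs_pos.2 hg) ?_
    exact single_le_sum (f := fun b => |ba x b g|) (fun b _ => abs_nonneg _) (mem_univ b)
  unfold bmu
  refine div_pos ?_ hp'
  exact lt_of_lt_of_le h6 (single_le_sum (f := fun g => bS x g) (fun g _ => hS g) (mem_univ g))

theorem sum_bV [Fact p.Prime] {x : Pt (M * (p - 1)) p} {k : ℕ} (hx : x ∈ XE (M * (p - 1)) p k)
    (l : Fin (M + 1)) : ∑ j, bV x l j = 0 := by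
  have hmu := bmu_pos hx
  have hp : 0 < p := (Fact.out : p.Prime).pos
  have hp' : (0 : ℝ) < p := by exact_mod_cast hp
  unfold bV
  refine Fin.lastCases ?_ (fun b => ?_) l
  · simp only [Fin.lastCases_last]
    rw [sum_sub_distrib, sum_const, card_univ, ZMod.card, nsmul_eq_mul, ← sum_div, ← mul_sum]
    have h : ∑ h, bS x h = bmu x * p := by
      unfold bmu
      field_simp
    rw [h]
    field_simp
    ring
  · simp only [Fin.lastCases_castSucc]
    rw [← sum_div, ← mul_sum, sum_ba, mul_zero, zero_div]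

/-- one of the increments is far from the integers -/
theorem bV_sep [Fact p.Prime] (hM : 0 < M) {x : Pt (M * (p - 1)) p} {k : ℕ}
    (hx : x ∈ XE (M * (p - 1)) p k) (j : ZMod p) :
    ∃ l : Fin (M + 1), 1 / (M : ℝ) ^ 2 ≤ 1 - Real.cos (bV x l j) := by
  have hmu := bmu_pos hx
  have hM' : (1 : ℝ) ≤ M := by exact_mod_cast hM
  by_contra hcon
  push Not at hcon
  have h1 := sep_aux hM (fun b => bV x (Fin.castSucc b) j) fun b => hcon _
  have h2 : ∑ b : Fin M, |bV x (Fin.castSucc b) j| - Real.pi = bV x (Fin.last M) j := by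
    unfold bV
    simp only [Fin.lastCases_last, Fin.lastCases_castSucc]
    congr 1
    unfold bS
    rw [mul_sum, sum_div]
    apply sum_congr rfl
    intro b _
    rw [abs_div, abs_mul, abs_of_pos hmu, abs_of_pos Real.pi_pos]
  rw [h2] at h1
  have h3 := hcon (Fin.last M)
  have h4 : 1 / (M : ℝ) ^ 2 ≤ 1 := by
    rw [div_le_one (by positivity)]
    nlinarith
  linarith

theorem bA_cont (b : Fin M) (j : ZMod p) : Continuous fun x : Pt (M * (p - 1)) p => bA x b j := by
  unfold bA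
  fun_prop

theorem ba_cont [NeZero p] (b : Fin M) (j : ZMod p) :
    Continuous fun x : Pt (M * (p - 1)) p => ba x b j := by
  unfold ba
  have h := fun j => bA_cont (M := M) (p := p) b j
  fun_prop

theorem bS_cont [NeZero p] (j : ZMod p) :
    Continuous fun x : Pt (M * (p - 1)) p => bS x j := by
  unfold bS
  have h := fun b => ba_cont (M := M) (p := p) b j
  fun_prop

theorem bmu_cont [NeZero p] : Continuous fun x : Pt (M * (p - 1)) p => bmu x := by
  unfold bmu
  have h := fun j => bS_cont (M := M) (p := p) j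
  fun_prop

theorem bV_cont [Fact p.Prime] (l : Fin (M + 1)) (j : ZMod p) :
    ContinuousOn (fun x : Pt (M * (p - 1)) p => bV x l j)
      (XE (M * (p - 1)) p (M * (p - 1))) := by
  have h1 := bmu_cont (M := M) (p := p)
  unfold bV
  refine Fin.lastCases ?_ (fun b => ?_) l
  · simp only [Fin.lastCases_last]
    have h2 := bS_cont (M := M) (p := p) j
    refine ContinuousOn.sub (ContinuousOn.div ?_ h1.continuousOn fun x hx => (bmu_pos hx).ne')
      continuousOn_const
    exact (continuous_const.mul h2).continuousOn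
  · simp only [Fin.lastCases_castSucc]
    have h2 := ba_cont (M := M) (p := p) b j
    refine ContinuousOn.div ?_ h1.continuousOn fun x hx => (bmu_pos hx).ne'
    exact (continuous_const.mul h2).continuousOn

end Vf

section Par

variable {M p : ℕ}

/-- index set of the real coordinates for a given time and lag -/
abbrev Wd (M : ℕ) : Type := Fin (M + 1) × Fin 2

/-- cosine or sine -/
noncomputable def cs (e : Fin 2) (z : ℝ) : ℝ := if e = 0 then Real.cos z else Real.sin z

theorem abs_cs_le (e : Fin 2) (z : ℝ) : |cs e z| ≤ 1 := by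
  unfold cs
  split
  · exact Real.abs_cos_le_one z
  · exact Real.abs_sin_le_one z

theorem cs_cont (e : Fin 2) : Continuous (cs e) := by
  unfold cs
  split
  · exact Real.continuous_cos
  · exact Real.continuous_sin

/-- the periodic sequence of a point of the join -/
noncomputable def parZ [NeZero p] (x : Pt (M * (p - 1)) p) (j : ZMod p) (r : ℕ) (w : Wd M) : ℝ :=
  cs w.2 (zs (bV x w.1) ((r + 1 : ℕ) : ZMod p) j)

theorem parZ_Tg [NeZero p] (g : ZMod p) (x : Pt (M * (p - 1)) p) (j : ZMod p) (r : ℕ) (w : Wd M) :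
    parZ (Tg g x) j r w = parZ x (j + g) r w := by
  unfold parZ zs
  simp only [bV_Tg]
  congr 3
  funext u
  congr 2
  ring

theorem abs_parZ_le [NeZero p] (x : Pt (M * (p - 1)) p) (j : ZMod p) (r : ℕ) (w : Wd M) :
    |parZ x j r w| ≤ 1 := abs_cs_le _ _

theorem parZ_sep [Fact p.Prime] (hM : 0 < M) {x : Pt (M * (p - 1)) p} {k : ℕ}
    (hx : x ∈ XE (M * (p - 1)) p k) (j : ZMod p) {r : ℕ} (hr : ((r + 1 : ℕ) : ZMod p) ≠ 0) :
    ∃ w : Wd M, 1 / (M : ℝ) ≤ |parZ x (j + ((r + 1 : ℕ) : ZMod p)) r w - parZ x j r w| := by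
  obtain ⟨l, hl⟩ := bV_sep hM hx j
  have h := zs_shift (bV x l) (sum_bV hx l) hr j
  rcases sep_cs hM h hl with h1 | h1
  · refine ⟨(l, 0), ?_⟩
    simpa [parZ, cs] using h1
  · refine ⟨(l, 1), ?_⟩
    simpa [parZ, cs] using h1

theorem parZ_cont [Fact p.Prime] (j : ZMod p) (r : ℕ) (w : Wd M) :
    ContinuousOn (fun x : Pt (M * (p - 1)) p => parZ x j r w)
      (XE (M * (p - 1)) p (M * (p - 1))) := by
  unfold parZ zs
  refine (cs_cont w.2).comp_continuousOn ?_
  refine ContinuousOn.div_const ?_ _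
  refine continuousOn_finsetSum _ fun u _ => ?_
  exact continuousOn_const.mul (bV_cont _ _)

end Par

end Pool.Agent.Lib.MP_3f8c0b_an
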