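import Pool.Agent.Lib.MP_3f8c0b_an.Param

/-!
# The system
-/

set_option autoImplicit false

namespace Pool.Agent.Lib.MP_3f8c0b_an

open Finset

/-- the space of all sequences -/
abbrev Om (M : ℕ) : Type := ℤ → ℕ → Wd M → ℝ

variable {M : ℕ}

/-- the shift -/
def sh (a : ℤ) (x : Om M) : Om M := fun j => x (j + a)

theorem sh_zero (x : Om M) : sh 0 x = x := by
  funext j
  simp [sh]

theorem sh_sh (a b : ℤ) (x : Om M) : sh a (sh b x) = sh (a + b) x := by
  funext j
  simp [sh, add_assoc]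

theorem sh_cont (a : ℤ) : Continuous (sh (M := M) a) := by
  unfold sh
  fun_prop

/-- number of coordinates of a window which may be bad -/
def kk (M m : ℕ) : ℕ := (m + 1) * Fintype.card (Wd M) * 2 ^ (m + 2)

/-- length of a window -/
def Nw (M m : ℕ) : ℕ := (m + 1) * (kk M m + 1)

theorem Nw_pos (M m : ℕ) : 0 < Nw M m := by
  unfold Nw
  positivity

/-- the real number `y` is bad at the position `s` -/
def Bad (N q s : ℕ) (y : ℝ) : Prop :=
  ∃ u : ℤ, (N : ℝ) * u + s < q * N * y ∧ (q : ℝ) * N * y < N * u + s + 1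

theorem bad_unique {N q s s' : ℕ} {y : ℝ} (hs : s < N) (hs' : s' < N) (h : Bad N q s y)
    (h' : Bad N q s' y) : s = s' := by
  obtain ⟨u, h1, h2⟩ := h
  obtain ⟨u', h1', h2'⟩ := h'
  have e1 : (N : ℤ) * u + s < N * u' + s' + 1 := by
    have : ((N : ℤ) * u + s : ℝ) < N * u' + s' + 1 := h1.trans h2'
    exact_mod_cast this
  have e2 : (N : ℤ) * u' + s' < N * u + s + 1 := by
    have : ((N : ℤ) * u' + s' : ℝ) < N * u + s + 1 := h1'.trans h2
    exact_mod_cast this
  have e3 : (N : ℤ) * u + s = N * u' + s' := by omega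
  have e4 : ((s : ℤ)) % N = (s' : ℤ) % N := by
    have : (s : ℤ) = s' + N * (u' - u) := by linarith [e3]
    rw [this, Int.add_mul_emod_self_left]
  rw [Int.emod_eq_of_lt (by positivity) (by exact_mod_cast hs),
    Int.emod_eq_of_lt (by positivity) (by exact_mod_cast hs')] at e4
  exact_mod_cast e4

theorem isOpen_bad (N q s : ℕ) : IsOpen {y : ℝ | Bad N q s y} := by
  unfold Bad
  simp only [Set.ofPred_exists]
  have hc : Continuous fun y : ℝ => (q : ℝ) * N * y := by fun_prop
  refine isOpen_iUnion fun u => ?_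
  exact (isOpen_lt continuous_const hc).inter (isOpen_lt hc continuous_const)

/-- coordinates of a window -/
abbrev Cd (M m : ℕ) : Type := Fin (Nw M m) × Fin (m + 1) × Wd M

/-- the value at a coordinate -/
def ev {m : ℕ} (x : Om M) (c : Cd M m) : ℝ := x ((c.1 : ℕ) : ℤ) (c.2.1 : ℕ) c.2.2

theorem ev_cont {m : ℕ} (c : Cd M m) : Continuous fun x : Om M => ev x c := by
  unfold ev
  fun_prop

open Classical in
/-- bad coordinates of the window -/
noncomputable def badS (m : ℕ) (x : Om M) : Finset (Cd M m) :=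
  univ.filter fun c => Bad (Nw M m) (m + 1) c.1 (ev x c)

/-- the set which is removed -/
def UU (M m : ℕ) : Set (Om M) := {x | kk M m + 1 ≤ (badS m x).card}

theorem isOpen_UU (M m : ℕ) : IsOpen (UU M m) := by
  classical
  have h : UU M m = ⋃ S : {S : Finset (Cd M m) // kk M m + 1 ≤ S.card},
      ⋂ c ∈ S.1, {x : Om M | Bad (Nw M m) (m + 1) c.1 (ev x c)} := by
    ext x
    simp only [UU, Set.mem_ofPred_eq, Set.mem_iUnion, Set.mem_iInter, Subtype.exists, exists_prop]
    constructor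
    · intro hx
      exact ⟨badS m x, hx, fun c hc => (mem_filter.1 hc).2⟩
    · rintro ⟨S, hS, hc⟩
      exact hS.trans (card_le_card fun c hcS => mem_filter.2 ⟨mem_univ _, hc c hcS⟩)
  rw [h]
  refine isOpen_iUnion fun S => ?_
  refine isOpen_biInter_finset fun c _ => ?_
  exact (isOpen_bad _ _ _).preimage (ev_cont c)

/-- the approximations of the system -/
def KK (M n : ℕ) : Set (Om M) :=
  {x | (∀ j r w, |x j r w| ≤ 1) ∧
    (∀ j : ℤ, ∀ r < n, ∃ w, 1 / (M : ℝ) ≤ |x (j + ((r + 1 : ℕ) : ℤ)) r w - x j r w|) ∧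
    ∀ j : ℤ, ∀ m < n, sh j x ∉ UU M m}

/-- the system -/
def XX (M : ℕ) : Set (Om M) := ⋂ n, KK M n

theorem KK_anti {n n' : ℕ} (h : n ≤ n') : KK M n' ⊆ KK M n := fun _ hx =>
  ⟨hx.1, fun j r hr => hx.2.1 j r (hr.trans_le h), fun j m hm => hx.2.2 j m (hm.trans_le h)⟩

theorem isClosed_KK (n : ℕ) : IsClosed (KK M n) := by
  have h1 : IsClosed {x : Om M | ∀ j r w, |x j r w| ≤ 1} := by
    simp only [Set.ofPred_forall]
    refine isClosed_iInter fun j => isClosed_iInter fun r => isClosed_iInter fun w => ?_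
    exact isClosed_le (by fun_prop) continuous_const
  have h2 : IsClosed {x : Om M | ∀ j : ℤ, ∀ r < n,
      ∃ w, 1 / (M : ℝ) ≤ |x (j + ((r + 1 : ℕ) : ℤ)) r w - x j r w|} := by
    simp only [Set.ofPred_forall, Set.ofPred_exists]
    refine isClosed_iInter fun j => isClosed_iInter fun r => isClosed_iInter fun _ => ?_
    refine isClosed_iUnion_of_finite fun w => ?_
    exact isClosed_le continuous_const (by fun_prop)
  have h3 : IsClosed {x : Om M | ∀ j : ℤ, ∀ m < n, sh j x ∉ UU M m} := by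
    simp only [Set.ofPred_forall]
    refine isClosed_iInter fun j => isClosed_iInter fun m => isClosed_iInter fun _ => ?_
    exact (isOpen_UU M m).isClosed_compl.preimage (sh_cont j)
  exact h1.inter (h2.inter h3)

theorem isCompact_KK (n : ℕ) : IsCompact (KK M n) := by
  have h : IsCompact (Set.pi Set.univ fun _ : ℤ => Set.pi Set.univ fun _ : ℕ =>
      Set.pi Set.univ fun _ : Wd M => Set.Icc (-1 : ℝ) 1) :=
    isCompact_univ_pi fun _ => isCompact_univ_pi fun _ => isCompact_univ_pi fun _ => isCompact_Icc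
  refine h.of_isClosed_subset (isClosed_KK n) ?_
  intro x hx
  simp only [Set.mem_pi, Set.mem_univ, true_implies]
  intro j r w
  exact abs_le.1 (hx.1 j r w)

theorem isClosed_XX : IsClosed (XX M) := isClosed_iInter fun n => isClosed_KK n

theorem isCompact_XX : IsCompact (XX M) :=
  (isCompact_KK 0).of_isClosed_subset isClosed_XX (Set.iInter_subset _ 0)

theorem sh_mem_KK {n : ℕ} {x : Om M} (hx : x ∈ KK M n) (a : ℤ) : sh a x ∈ KK M n := by
  refine ⟨fun j r w => hx.1 _ r w, fun j r hr => ?_, fun j m hm => ?_⟩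
  · obtain ⟨w, hw⟩ := hx.2.1 (j + a) r hr
    refine ⟨w, ?_⟩
    simp only [sh]
    rw [show j + ((r + 1 : ℕ) : ℤ) + a = j + a + ((r + 1 : ℕ) : ℤ) by ring]
    exact hw
  · rw [sh_sh]
    exact hx.2.2 _ m hm

theorem sh_mem_XX {x : Om M} (hx : x ∈ XX M) (a : ℤ) : sh a x ∈ XX M := by
  rw [XX, Set.mem_iInter] at hx ⊢
  exact fun n => sh_mem_KK (hx n) a

theorem sh_ne {x : Om M} (hM : 0 < M) (hx : x ∈ XX M) {a : ℤ} (ha : a ≠ 0) : sh a x ≠ x := by
  have hM' : (0 : ℝ) < M := by exact_mod_cast hM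
  have main : ∀ {y : Om M}, y ∈ XX M → ∀ r : ℕ, sh ((r + 1 : ℕ) : ℤ) y ≠ y := by
    intro y hy r hr
    rw [XX, Set.mem_iInter] at hy
    obtain ⟨w, hw⟩ := (hy (r + 1)).2.1 0 r (Nat.lt_succ_self r)
    have h1 : y (0 + ((r + 1 : ℕ) : ℤ)) r w = y 0 r w := by
      conv_rhs => rw [← hr]
      rfl
    rw [h1, sub_self, abs_zero] at hw
    have : 0 < 1 / (M : ℝ) := by positivity
    linarith
  intro hcon
  rcases lt_or_gt_of_ne ha with h | h
  · obtain ⟨r, hr⟩ : ∃ r : ℕ, -a = ((r + 1 : ℕ) : ℤ) := ⟨(-a - 1).toNat, by push_cast; omega⟩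
    apply main hx r
    rw [← hr]
    conv_lhs => rw [← hcon]
    rw [sh_sh, neg_add_cancel, sh_zero]
  · obtain ⟨r, hr⟩ : ∃ r : ℕ, a = ((r + 1 : ℕ) : ℤ) := ⟨(a - 1).toNat, by push_cast; omega⟩
    apply main hx r
    rw [← hr]
    exact hcon

/-- the periodic sequence of a function on `ZMod p` -/
def perS {p : ℕ} (X : ZMod p → ℕ → Wd M → ℝ) : Om M := fun j => X (j : ZMod p)

theorem sh_perS {p : ℕ} (X : ZMod p → ℕ → Wd M → ℝ) (a : ℤ) :
    sh a (perS X) = perS fun g => X (g + (a : ZMod p)) := by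
  funext j
  simp [sh, perS]

theorem count_UU {p : ℕ} [NeZero p] (X : ZMod p → ℕ → Wd M → ℝ) (m : ℕ) :
    ∑ g : ZMod p, (badS m (perS fun h => X (h + g))).card ≤ (m + 1) * Fintype.card (Wd M) * p := by
  classical
  have h1 : ∀ g : ZMod p, (badS m (perS fun h => X (h + g))).card
      = ∑ s : Fin (Nw M m), ∑ c : Fin (m + 1) × Wd M,
        if Bad (Nw M m) (m + 1) s (X (((s : ℕ) : ZMod p) + g) c.1 c.2) then 1 else 0 := by
    intro g
    rw [badS, card_filter, Fintype.sum_prod_type]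
    apply sum_congr rfl
    intro s _
    apply sum_congr rfl
    intro c _
    simp [ev, perS]
  simp only [h1]
  rw [sum_comm]
  have h2 : ∀ s : Fin (Nw M m), ∑ g : ZMod p, ∑ c : Fin (m + 1) × Wd M,
        (if Bad (Nw M m) (m + 1) s (X (((s : ℕ) : ZMod p) + g) c.1 c.2) then 1 else 0)
      = ∑ g : ZMod p, ∑ c : Fin (m + 1) × Wd M,
        (if Bad (Nw M m) (m + 1) s (X g c.1 c.2) then 1 else 0) := by
    intro s
    exact Fintype.sum_equiv (Equiv.addLeft ((s : ℕ) : ZMod p)) _ _ fun g => rfl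
  rw [sum_congr rfl fun s _ => h2 s, sum_comm]
  have h3 : ∀ g : ZMod p, ∑ s : Fin (Nw M m), ∑ c : Fin (m + 1) × Wd M,
        (if Bad (Nw M m) (m + 1) s (X g c.1 c.2) then 1 else 0)
      ≤ (m + 1) * Fintype.card (Wd M) := by
    intro g
    rw [sum_comm]
    calc _ ≤ ∑ _c : Fin (m + 1) × Wd M, 1 := by
          apply sum_le_sum
          intro c _
          rw [← card_filter]
          rw [card_le_one]
          intro s hs s' hs'
          rw [mem_filter] at hs hs'
          exact Fin.ext (bad_unique s.2 s'.2 hs.2 hs'.2)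
      _ = _ := by
          rw [sum_const, card_univ, Fintype.card_prod, Fintype.card_fin, smul_eq_mul, mul_one]
  calc _ ≤ ∑ _g : ZMod p, (m + 1) * Fintype.card (Wd M) := sum_le_sum fun g _ => h3 g
    _ = _ := by
      rw [sum_const, card_univ, ZMod.card, smul_eq_mul, mul_comm]

theorem exists_good {p : ℕ} [NeZero p] (X : ZMod p → ℕ → Wd M → ℝ) (n : ℕ) :
    ∃ g : ZMod p, ∀ m < n, (perS fun h => X (h + g)) ∉ UU M m := by
  classical
  by_contra hcon
  push Not at hcon
  have hp : (0 : ℝ) < p := by exact_mod_cast Nat.pos_of_ne_zero (NeZero.ne p)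
  let B : ℕ → Finset (ZMod p) := fun m => univ.filter fun g => (perS fun h => X (h + g)) ∈ UU M m
  have h1 : ∀ m, ((B m).card : ℝ) ≤ p * (1 / 2) ^ (m + 2) := by
    intro m
    have h2 : (kk M m + 1) * (B m).card ≤ (m + 1) * Fintype.card (Wd M) * p := by
      refine le_trans ?_ (count_UU X m)
      calc (kk M m + 1) * (B m).card = ∑ _g ∈ B m, (kk M m + 1) := by
            rw [sum_const, smul_eq_mul, mul_comm]
        _ ≤ ∑ g ∈ B m, (badS m (perS fun h => X (h + g))).card := by
            apply sum_le_sum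
            intro g hg
            exact (mem_filter.1 hg).2
        _ ≤ _ := sum_le_sum_of_subset (subset_univ _)
    have h3 : (kk M m : ℝ) * (B m).card ≤ (m + 1) * Fintype.card (Wd M) * p := by
      have : ((kk M m + 1) * (B m).card : ℝ) ≤ (m + 1) * Fintype.card (Wd M) * p := by
        exact_mod_cast h2
      nlinarith [Nat.cast_nonneg (α := ℝ) (B m).card]
    unfold kk at h3
    push_cast at h3
    have hc : (0 : ℝ) < (m + 1) * Fintype.card (Wd M) := by
      have : 0 < Fintype.card (Wd M) := Fintype.card_pos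
      positivity
    have h4 : (2 : ℝ) ^ (m + 2) * (B m).card ≤ p := by
      have h5 : ((m : ℝ) + 1) * Fintype.card (Wd M) * ((2 : ℝ) ^ (m + 2) * (B m).card)
          ≤ (m + 1) * Fintype.card (Wd M) * p := by
        calc _ = (((m : ℝ) + 1) * Fintype.card (Wd M) * 2 ^ (m + 2)) * (B m).card := by ring
          _ ≤ _ := h3
      exact le_of_mul_le_mul_left h5 hc
    rw [one_div, inv_pow, ← div_eq_mul_inv, le_div_iff₀ (by positivity), mul_comm]
    exact h4
  have h2 : (univ : Finset (ZMod p)) ⊆ (range n).biUnion B := by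
    intro g _
    obtain ⟨m, hm, hg⟩ := hcon g
    exact mem_biUnion.2 ⟨m, mem_range.2 hm, mem_filter.2 ⟨mem_univ _, hg⟩⟩
  have h3 : (p : ℝ) ≤ ∑ m ∈ range n, p * (1 / 2 : ℝ) ^ (m + 2) := by
    have h4 := (card_le_card h2).trans card_biUnion_le
    rw [card_univ, ZMod.card] at h4
    calc (p : ℝ) ≤ ((∑ m ∈ range n, (B m).card : ℕ) : ℝ) := by exact_mod_cast h4
      _ = ∑ m ∈ range n, ((B m).card : ℝ) := by push_cast; rfl
      _ ≤ _ := sum_le_sum fun m _ => h1 m
  have h5 : ∀ n : ℕ, ∑ m ∈ range n, p * (1 / 2 : ℝ) ^ (m + 2) = p * (1 / 2 - (1 / 2) ^ (n + 1)) := by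
    intro n
    induction n with
    | zero => simp
    | succ n ih =>
      rw [sum_range_succ, ih]
      ring
  rw [h5] at h3
  have h6 : (0 : ℝ) < (1 / 2) ^ (n + 1) := by positivity
  nlinarith

/-- the periodic sequence of a point of the join -/
noncomputable def par {p : ℕ} [NeZero p] (x : Pt (M * (p - 1)) p) : Om M := perS (parZ x)

theorem par_Tg {p : ℕ} [NeZero p] (g : ZMod p) (x : Pt (M * (p - 1)) p) :
    par (Tg g x) = perS fun h => parZ x (h + g) := by
  unfold par
  congr 1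
  funext h r w
  exact parZ_Tg g x h r w

theorem sh_par {p : ℕ} [NeZero p] (a : ℤ) (x : Pt (M * (p - 1)) p) :
    sh a (par x) = par (Tg (a : ZMod p) x) := by
  rw [par_Tg, par, sh_perS]

theorem par_cont {p : ℕ} [Fact p.Prime] :
    ContinuousOn (par (M := M) (p := p)) (XE (M * (p - 1)) p (M * (p - 1))) := by
  unfold par perS
  refine continuousOn_pi.2 fun j => continuousOn_pi.2 fun r => continuousOn_pi.2 fun w => ?_
  exact parZ_cont _ _ _

theorem par_mem {p : ℕ} [Fact p.Prime] (hM : 0 < M) {n : ℕ} (hn : n < p)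
    {x : Pt (M * (p - 1)) p} (hx : x ∈ XE (M * (p - 1)) p (M * (p - 1)))
    (hU : ∀ g : ZMod p, ∀ m < n, (perS fun h => parZ x (h + g)) ∉ UU M m) : par x ∈ KK M n := by
  refine ⟨fun j r w => abs_parZ_le _ _ _ _, fun j r hr => ?_, fun j m hm => ?_⟩
  · have hr' : ((r + 1 : ℕ) : ZMod p) ≠ 0 := by
      intro h0
      rw [ZMod.natCast_eq_zero_iff] at h0
      have := Nat.le_of_dvd (Nat.succ_pos r) h0
      omega
    obtain ⟨w, hw⟩ := parZ_sep hM hx (j : ZMod p) hr'
    refine ⟨w, ?_⟩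
    simp only [par, perS]
    push_cast at hw ⊢
    exact hw
  · rw [par, sh_perS]
    exact hU _ m hm

/-- Every continuous map of the system into a Euclidean space of dimension at most `M - 2` is
constant on some orbit. -/
theorem exists_const_orbit {D : ℕ} (hM : M = D + 2) (φ : XX M → Fin D → ℝ) (hφ : Continuous φ) :
    ∃ x : XX M, ∀ a : ℤ, φ ⟨sh a x.1, sh_mem_XX x.2 a⟩ = φ x := by
  classical
  by_contra hcon
  push Not at hcon
  have hM0 : 0 < M := by omega
  letI : MetricSpace (Om M) := TopologicalSpace.metrizableSpaceMetric (Om M)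
  -- extension
  obtain ⟨ψ, hψ⟩ := ContinuousMap.exists_restrict_eq (Y := Fin D → ℝ)
    (isClosed_XX (M := M)) ⟨φ, hφ⟩
  have hψ' : ∀ x : XX M, ψ x.1 = φ x := by
    intro x
    have := congrArg (fun f => f x) hψ
    simpa using this
  let O : Set (Om M) := {x | ∃ a : ℤ, ψ (sh a x) ≠ ψ x}
  have hO : IsOpen O := by
    have : O = ⋃ a : ℤ, {x | ψ (sh a x) ≠ ψ x} := by
      ext x
      simp [O]
    rw [this]
    refine isOpen_iUnion fun a => ?_
    exact isOpen_ne_fun (ψ.continuous.comp (sh_cont a)) ψ.continuous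
  have hXO : XX M ⊆ O := by
    intro x hx
    obtain ⟨a, ha⟩ := hcon ⟨x, hx⟩
    refine ⟨a, ?_⟩
    rw [hψ' ⟨x, hx⟩, hψ' ⟨sh a x, sh_mem_XX hx a⟩]
    exact ha
  obtain ⟨n, hn⟩ : ∃ n, KK M n ⊆ O := by
    refine exists_subset_nhds_of_isCompact' (V := fun n => KK M n) ?_ (fun n => isCompact_KK n)
      (fun n => isClosed_KK n) fun x hx => hO.mem_nhds (hXO hx)
    intro n n'
    exact ⟨max n n', KK_anti (le_max_left _ _), KK_anti (le_max_right _ _)⟩
  -- the auxiliary function
  let V : Set (Om M) := ⋃ m ∈ Finset.range n, UU M m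
  have hV : IsOpen V := isOpen_biUnion fun m _ => isOpen_UU M m
  have hbc : Continuous fun x : Om M => Metric.infDist x Vᶜ := Metric.continuous_infDist_pt _
  -- a prime
  obtain ⟨p, hpn, hp⟩ := Nat.exists_infinite_primes (n + 3)
  haveI : Fact p.Prime := ⟨hp⟩
  have h2 : (2 : ZMod p) ≠ 0 := by
    have : ((2 : ℕ) : ZMod p) ≠ 0 := by
      intro h0
      rw [ZMod.natCast_eq_zero_iff] at h0
      have := Nat.le_of_dvd (by norm_num) h0
      omega
    exact_mod_cast this
  have hdim : (D + 1) * (p - 1) < M * (p - 1) := by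
    have : 0 < p - 1 := by have := hp.two_le; omega
    rw [hM]
    nlinarith
  let F : Pt (M * (p - 1)) p → Fin (D + 1) → ℝ := fun e =>
    Fin.snoc (α := fun _ => ℝ) (ψ (par e)) (Metric.infDist (par e) Vᶜ)
  have hF : ContinuousOn F (XE (M * (p - 1)) p (M * (p - 1))) := by
    refine continuousOn_pi.2 fun i => ?_
    refine Fin.lastCases ?_ (fun i => ?_) i
    · simp only [F, Fin.snoc_last]
      exact hbc.comp_continuousOn par_cont
    · simp only [F, Fin.snoc_castSucc]
      exact ((continuous_apply i).comp ψ.continuous).comp_continuousOn par_cont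
  obtain ⟨e, he, hFe⟩ := bu h2 hdim F hF
  have hψe : ∀ g : ZMod p, ψ (par (Tg g e)) = ψ (par e) := by
    intro g
    funext i
    have := congrFun (hFe g) (Fin.castSucc i)
    simpa [F] using this
  have hbe : ∀ g : ZMod p, Metric.infDist (par (Tg g e)) Vᶜ = Metric.infDist (par e) Vᶜ := by
    intro g
    have := congrFun (hFe g) (Fin.last D)
    simpa [F] using this
  obtain ⟨g0, hg0⟩ := exists_good (parZ e) n
  have hVg : par (Tg g0 e) ∈ Vᶜ := by
    rw [par_Tg]
    simp only [V, Set.mem_compl_iff, Set.mem_iUnion, not_exists]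
    intro m hm
    exact hg0 m (Finset.mem_range.1 hm)
  have hne : (Vᶜ).Nonempty := ⟨_, hVg⟩
  have hb0 : Metric.infDist (par e) Vᶜ = 0 := by
    rw [← hbe g0]
    exact Metric.infDist_zero_of_mem hVg
  have hgood : ∀ g : ZMod p, ∀ m < n, (perS fun h => parZ e (h + g)) ∉ UU M m := by
    intro g m hm hcon'
    have h3 : Metric.infDist (par (Tg g e)) Vᶜ = 0 := by rw [hbe g, hb0]
    have h4 := (hV.isClosed_compl.mem_iff_infDist_zero hne).2 h3
    rw [par_Tg] at h4
    apply h4
    simp only [V, Set.mem_iUnion]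
    exact ⟨m, Finset.mem_range.2 hm, hcon'⟩
  have hK : par e ∈ KK M n := par_mem hM0 (by omega) he hgood
  obtain ⟨a, ha⟩ := hn hK
  apply ha
  rw [sh_par]
  exact hψe _

end Pool.Agent.Lib.MP_3f8c0b_an
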